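import Pool.Agent.Smo.Asym

/-!
# Smo.Fin: translation to simple graphs
-/

namespace Smo

open Finset Filter

/-- The probability of the graph `G` when the pairs `i < j` are independent edges with probability `p i j`. -/
noncomputable def wt {n : ℕ} (p : Fin n → Fin n → ℝ) (G : SimpleGraph (Fin n)) : ℝ :=
  open Classical in ∏ x : Fin n × Fin n with x.1 < x.2, if G.Adj x.1 x.2 then p x.1 x.2 else 1 - p x.1 x.2

/-- `p` on unordered pairs. -/
noncomputable def lift {n : ℕ} (p : Fin n → Fin n → ℝ) (hp : ∀ i j, p i j = p j i) : Sym2 (Fin n) → ℝ :=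
  Sym2.lift ⟨p, hp⟩

open Classical in
theorem wt_eq {n : ℕ} (p : Fin n → Fin n → ℝ) (hp : ∀ i j, p i j = p j i) (G : SimpleGraph (Fin n)) :
    wt p G = ∏ e ∈ prs (univ : Finset (Fin n)), if e ∈ G.edgeFinset then lift p hp e else 1 - lift p hp e := by
  unfold wt
  apply prod_bij (fun (x : Fin n × Fin n) _ => s(x.1, x.2))
  · intro x hx
    rw [mem_filter] at hx
    rw [mem_prs]
    exact ⟨mem_univ _, mem_univ _, hx.2.ne⟩
  · intro x hx y hy hxy
    rw [mem_filter] at hx hy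
    rw [Sym2.eq_iff] at hxy
    rcases hxy with ⟨h1, h2⟩ | ⟨h1, h2⟩
    · exact Prod.ext h1 h2
    · exfalso
      have h3 := hx.2
      have h4 := hy.2
      rw [h1, h2] at h3
      exact lt_asymm h3 h4
  · intro e
    induction e using Sym2.ind with
    | _ a b =>
      intro he
      rw [mem_prs] at he
      rcases lt_or_gt_of_ne he.2.2 with h | h
      · exact ⟨(a, b), mem_filter.mpr ⟨mem_univ _, h⟩, rfl⟩
      · exact ⟨(b, a), mem_filter.mpr ⟨mem_univ _, h⟩, Sym2.eq_swap⟩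
  · intro x _
    have h1 : (s(x.1, x.2) ∈ G.edgeFinset) = G.Adj x.1 x.2 := by
      rw [SimpleGraph.mem_edgeFinset, SimpleGraph.mem_edgeSet]
    have h2 : lift p hp s(x.1, x.2) = p x.1 x.2 := rfl
    rw [h2]
    by_cases h : G.Adj x.1 x.2
    · rw [if_pos h, if_pos (h1 ▸ h)]
    · rw [if_neg h, if_neg (h1 ▸ h)]

open Classical in
/-- Sums over graphs are expectations. -/
theorem sum_wt {n : ℕ} (p : Fin n → Fin n → ℝ) (hp : ∀ i j, p i j = p j i) (R : Finset (Sym2 (Fin n)) → Prop) :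
    ∑ G : SimpleGraph (Fin n), wt p G * ind (R G.edgeFinset) = Ex (lift p hp) (prs univ) (fun ω => ind (R ω)) := by
  unfold Ex
  apply sum_bij (fun (G : SimpleGraph (Fin n)) _ => G.edgeFinset)
  · intro G _
    rw [mem_powerset]
    intro e
    induction e using Sym2.ind with
    | _ a b =>
      intro he
      rw [SimpleGraph.mem_edgeFinset, SimpleGraph.mem_edgeSet] at he
      exact mem_prs.mpr ⟨mem_univ _, mem_univ _, he.ne⟩
  · intro G _ H _ hGH
    exact SimpleGraph.edgeFinset_inj.mp hGH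
  · intro ω hω
    rw [mem_powerset] at hω
    have hω' : ∀ e ∈ ω, ¬ e.IsDiag := by
      intro e he
      have := hω he
      unfold prs at this
      exact (mem_filter.mp this).2
    obtain ⟨G, hG⟩ : ∃ G : SimpleGraph (Fin n), G = SimpleGraph.fromEdgeSet (ω : Set (Sym2 (Fin n))) := ⟨_, rfl⟩
    have hE : G.edgeSet = (ω : Set (Sym2 (Fin n))) \ Sym2.diagSet := by
      rw [hG]
      exact SimpleGraph.edgeSet_fromEdgeSet _
    refine ⟨G, mem_univ _, ?_⟩
    ext e
    rw [SimpleGraph.mem_edgeFinset, hE]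
    constructor
    · exact fun h => mem_coe.mp h.1
    · exact fun h => ⟨mem_coe.mpr h, hω' e h⟩
  · intro G _
    rw [wt_eq p hp G]

open Classical in
theorem reg_iff {n : ℕ} (G : SimpleGraph (Fin n)) (S : Finset (Fin n)) :
    Reg G.edgeFinset S ↔ ∃ k : ℕ, ∀ v ∈ S, (S.filter fun w => G.Adj v w).card = k := by
  have h : ∀ v, dg G.edgeFinset S v = (S.filter fun w => G.Adj v w).card := by
    intro v
    unfold dg
    congr 1
    ext u
    rw [mem_nb, mem_filter, SimpleGraph.mem_edgeFinset, SimpleGraph.mem_edgeSet]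
    constructor
    · exact fun h => ⟨h.1, h.2.2⟩
    · exact fun h => ⟨h.1, h.2.ne', h.2⟩
  unfold Reg
  simp_rw [h]

open Classical in
theorem main {σ τ : ℝ} (hσ : 0 ≤ σ) (hτ : 0 ≤ τ) (h : 3 * σ + 4 * τ < 4) :
    ∃ n₀ : ℕ, ∀ n : ℕ, n₀ ≤ n → ∀ p : Fin n → Fin n → ℝ, (∀ i j, p i j = p j i) →
      (∀ i j, i ≠ j → Real.exp (-(Real.log n) ^ τ) ≤ p i j ∧ p i j ≤ 1 - Real.exp (-(Real.log n) ^ τ)) →
      ∑ G : SimpleGraph (Fin n) with ∀ S : Finset (Fin n), (Real.log n) ^ σ ≤ S.card →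
        ¬ ∃ k : ℕ, ∀ v ∈ S, (S.filter fun w => G.Adj v w).card = k, wt p G ≤ 1 / n := by
  obtain ⟨σ', hσ', hσσ', h'⟩ : ∃ σ' : ℝ, 0 < σ' ∧ σ ≤ σ' ∧ 3 * σ' + 4 * τ < 4 :=
    ⟨σ + (4 - 3 * σ - 4 * τ) / 6, by linarith, by linarith, by linarith⟩
  have hlog : Tendsto (fun n : ℕ => Real.log n) atTop atTop :=
    Real.tendsto_log_atTop.comp tendsto_natCast_atTop_atTop
  have hev := (hlog.eventually (asym hσ' hτ h')).and
    ((hlog.eventually_ge_atTop 1).and (eventually_ge_atTop 1))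
  obtain ⟨n₀, hn₀⟩ := eventually_atTop.mp hev
  refine ⟨n₀, fun n hn p hp hpδ => ?_⟩
  obtain ⟨⟨s, D, Lam, lam, κ, m, b1, b2, b3, b4, b5, b6, b7, b8, b9, b10, b11, b12, b13, b14⟩, hl1, hn1⟩ := hn₀ n hn
  have hn0 : (0 : ℝ) < n := by exact_mod_cast hn1
  rw [Real.exp_log hn0] at b3 b10 b14
  have hP : ∀ e ∈ prs (univ : Finset (Fin n)), Real.exp (-(Real.log n) ^ τ) ≤ lift p hp e ∧
      lift p hp e ≤ 1 - Real.exp (-(Real.log n) ^ τ) := by
    intro e
    induction e using Sym2.ind with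
    | _ a b =>
      intro he
      rw [mem_prs] at he
      exact hpδ a b he.2.2
  have hδ1 : Real.exp (-(Real.log n) ^ τ) ≤ 1 := by
    rw [Real.exp_le_one_iff]
    have := Real.rpow_nonneg (show 0 ≤ Real.log n by linarith) τ
    linarith
  have hc := core hn1 (Real.exp_pos _) hδ1 hP b2 b3 b4 b5 b6 b7 b8 b9 b10 b11 b12 b13
  refine le_trans ?_ (hc.trans b14)
  rw [← sum_wt p hp, sum_filter]
  have hp01 : ∀ i j : Fin n, i ≠ j → 0 ≤ p i j ∧ p i j ≤ 1 := by
    intro i j hij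
    have := hpδ i j hij
    have := Real.exp_pos (-(Real.log n) ^ τ)
    constructor <;> linarith
  have hwt0 : ∀ G : SimpleGraph (Fin n), 0 ≤ wt p G := by
    intro G
    unfold wt
    apply prod_nonneg
    intro x hx
    have := hp01 x.1 x.2 (mem_filter.mp hx).2.ne
    split_ifs <;> linarith
  apply sum_le_sum
  intro G _
  split_ifs with hG
  · rw [ind_of, mul_one]
    intro S hS hReg
    refine hG S ?_ ((reg_iff G S).mp hReg)
    calc (Real.log n) ^ σ ≤ (Real.log n) ^ σ' := Real.rpow_le_rpow_of_exponent_le hl1 hσσ'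
      _ ≤ s / 2 := b1
      _ ≤ S.card := hS
  · exact mul_nonneg (hwt0 G) (ind_nonneg _)

open Classical in
theorem total {n : ℕ} (p : Fin n → Fin n → ℝ) (hp : ∀ i j, p i j = p j i) : ∑ G : SimpleGraph (Fin n), wt p G = 1 := by
  have h := sum_wt p hp (fun _ => True)
  have h1 : ∑ G : SimpleGraph (Fin n), wt p G * ind True = ∑ G : SimpleGraph (Fin n), wt p G :=
    sum_congr rfl fun G _ => by rw [ind_of trivial, mul_one]
  rw [h1] at h
  rw [h]
  have h2 : Ex (lift p hp) (prs univ) (fun _ => ind True) = Ex (lift p hp) (prs univ) (fun _ => 1) :=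
    Ex_congr _ _ fun _ _ => ind_of trivial
  rw [h2, Ex_one]

end Smo
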