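import Pool.Agent.Swp.Sweep

/-!
# Smo.Window: thin fractional sets with nearly equal degrees
-/

namespace Smo

open Finset Swp

variable {ι : Type*} [Fintype ι]

/-- The additive window: `(A f)_p` is within `T` of `r Σ f` on the support of `f`. -/
theorem sweep_real (A : ι → ι → ℝ) (hA0 : ∀ p q, 0 ≤ A p q) (hA1 : ∀ p q, A p q ≤ 1) (hs : ∀ p q, A p q = A q p)
    {T : ℝ} (hT : 0 < T) (hTN : T ≤ Fintype.card ι) :
    ∃ (r : ℝ) (f : ι → ℝ), (∀ p, 0 ≤ f p ∧ f p ≤ 1) ∧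
      (∀ p, 0 < f p → |mv A f p - r * ∑ q, f q| ≤ T) ∧
      2 / 3 * (T * Fintype.card ι) ≤ (∑ p, f p) ^ 2 := by
  obtain ⟨N, hNdef⟩ : ∃ N : ℝ, N = (Fintype.card ι : ℝ) := ⟨_, rfl⟩
  rw [← hNdef] at hTN ⊢
  have hN0 : 0 < N := by linarith
  have hJ : ∀ g : ι → ℝ, qf (fun _ _ => (1 : ℝ)) g = (∑ p, g p) ^ 2 := by
    intro g
    unfold qf mv
    simp only [one_mul]
    rw [← sum_mul, sq]
  have hqM : ∀ (t : ℝ) (g : ι → ℝ), qf (MM A (fun _ _ => (1 : ℝ)) t) g = qf A g + t * (∑ p, g p) ^ 2 := by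
    intro t g
    rw [← hJ]
    unfold qf mv MM
    rw [mul_sum, ← sum_add_distrib]
    refine sum_congr rfl fun p _ => ?_
    have h1 : ∑ q, (A p q + t * (fun _ _ => (1 : ℝ)) p q) * g q = ∑ q, A p q * g q + t * ∑ q, (fun _ _ => (1 : ℝ)) p q * g q := by
      rw [mul_sum, ← sum_add_distrib]
      exact sum_congr rfl fun q _ => by ring
    rw [h1]
    ring
  have hqA0 : ∀ g : ι → ℝ, (∀ p, 0 ≤ g p) → 0 ≤ qf A g := fun g hg =>
    sum_nonneg fun p _ => mul_nonneg (hg p) (sum_nonneg fun q _ => mul_nonneg (hA0 p q) (hg q))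
  have hqA1 : ∀ g : ι → ℝ, (∀ p, 0 ≤ g p) → qf A g ≤ (∑ p, g p) ^ 2 := by
    intro g hg
    rw [← hJ]
    unfold qf mv
    refine sum_le_sum fun p _ => mul_le_mul_of_nonneg_left (sum_le_sum fun q _ => ?_) (hg p)
    exact mul_le_mul_of_nonneg_right (hA1 p q) (hg q)
  have hs1 : ∑ p : ι, (1 : ι → ℝ) p = N := by
    simp only [Pi.one_apply]
    rw [sum_const, card_univ, nsmul_eq_mul, mul_one, hNdef]
  obtain ⟨x, -, -, f, hf, hw, hD⟩ := sweep A (fun _ _ => (1 : ℝ)) hs (fun _ _ => rfl)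
    (φ := fun x => 1 - x) (ψ := fun _ => 1) (by fun_prop) (by fun_prop) (l := 3) (by norm_num)
    (fun x y _ hxy _ => ⟨by linarith, by linarith⟩) (l1 := T) (l2 := -T) (D := T * N) (by linarith) (by positivity)
    (by
      intro a b ha hb
      obtain ⟨g, hg⟩ : ∃ g : ι → ℝ, g = 1 - b := ⟨_, rfl⟩
      have hg01 : ∀ p, 0 ≤ g p ∧ g p ≤ 1 := by
        intro p
        rw [hg]
        simp only [Pi.sub_apply, Pi.one_apply]
        constructor <;> linarith [(hb p).1, (hb p).2]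
      have hsum : ∑ p, g p = N - ∑ p, b p := by
        rw [hg]
        simp only [Pi.sub_apply, Pi.one_apply]
        rw [sum_sub_distrib, sum_const, card_univ, nsmul_eq_mul, mul_one, hNdef]
      have h1 := hqA1 g fun p => (hg01 p).1
      have h2 := hqA0 a fun p => (ha p).1
      unfold QQ
      rw [hqM, hqM, ← hg, hs1, sub_zero]
      have h3 : ∑ p, b p = N - ∑ p, g p := by linarith
      have h4 : ∑ p : ι, (0 : ι → ℝ) p = 0 := by simp
      rw [h3, h4]
      nlinarith [sq_nonneg (∑ p, g p - T), sq_nonneg (∑ p, a p - T)])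
  refine ⟨-(1 - x), f, hf, fun p hp => ?_, ?_⟩
  · have h1 := hw p hp
    rw [mv_MM_eq] at h1
    have h2 : mv (fun _ _ => (1 : ℝ)) f p = ∑ q, f q := by
      unfold mv
      simp only [one_mul]
    rw [h2] at h1
    rw [abs_le]
    constructor <;> linarith [h1.1, h1.2]
  · rw [hJ] at hD
    linarith

/-- A fractional set of mass `s`, with small entries, all of whose degrees are within `1` of each other. -/
theorem window (A : ι → ι → ℝ) (hA0 : ∀ p q, 0 ≤ A p q) (hA1 : ∀ p q, A p q ≤ 1) (hsym : ∀ p q, A p q = A q p)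
    {s : ℝ} (hs : 1 ≤ s) (hN : 1 ≤ Fintype.card ι) :
    ∃ (c : ℝ) (f : ι → ℝ), (∀ p, 0 ≤ f p ∧ f p ≤ 3 * s ^ 2 / (2 * Fintype.card ι)) ∧
      (∀ p, 0 < f p → |mv A f p - c| ≤ 1) ∧ ∑ p, f p = s := by
  obtain ⟨N, hNdef⟩ : ∃ N : ℝ, N = (Fintype.card ι : ℝ) := ⟨_, rfl⟩
  rw [← hNdef]
  have hN0 : 1 ≤ N := by
    rw [hNdef]
    exact_mod_cast hN
  have hs2 : 1 ≤ s ^ 2 := by nlinarith
  obtain ⟨T, hT⟩ : ∃ T : ℝ, T = 2 * N / (3 * s ^ 2) := ⟨_, rfl⟩
  have hT0 : 0 < T := by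
    rw [hT]
    positivity
  have hTN : T ≤ Fintype.card ι := by
    rw [← hNdef, hT, div_le_iff₀ (by positivity)]
    nlinarith
  obtain ⟨r, f, hf, hw, hF⟩ := sweep_real A hA0 hA1 hsym hT0 hTN
  rw [← hNdef] at hF
  set F := ∑ p, f p with hFdef
  have hF0 : 0 ≤ F := sum_nonneg fun p _ => (hf p).1
  have hF1 : 2 * N / (3 * s) ≤ F := by
    have h1 : 2 / 3 * (T * N) = (2 * N / (3 * s)) ^ 2 := by
      rw [hT]
      field_simp
    rw [h1] at hF
    exact (pow_le_pow_iff_left₀ (by positivity) hF0 two_ne_zero).mp hF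
  have hFpos : 0 < F := lt_of_lt_of_le (by positivity) hF1
  have hθ : s / F ≤ 3 * s ^ 2 / (2 * N) := by
    rw [div_le_div_iff₀ hFpos (by positivity)]
    have h2 := mul_le_mul_of_nonneg_left hF1 (show 0 ≤ 3 * s ^ 2 by positivity)
    have h3 : 3 * s ^ 2 * (2 * N / (3 * s)) = s * (2 * N) := by
      field_simp
    linarith
  have hθ0 : 0 ≤ s / F := by positivity
  refine ⟨r * s, fun p => s / F * f p, ?_, ?_, ?_⟩
  · intro p
    refine ⟨mul_nonneg hθ0 (hf p).1, ?_⟩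
    calc s / F * f p ≤ s / F * 1 := mul_le_mul_of_nonneg_left (hf p).2 hθ0
      _ ≤ 3 * s ^ 2 / (2 * N) := by rw [mul_one]; exact hθ
  · intro p hp
    have hfp : 0 < f p := by
      rcases (hf p).1.lt_or_eq with h | h
      · exact h
      · change 0 < s / F * f p at hp
        rw [← h, mul_zero] at hp
        exact absurd hp (lt_irrefl 0)
    have h1 := hw p hfp
    have h2 : mv A (fun p => s / F * f p) p - r * s = s / F * (mv A f p - r * F) := by
      have h3 : mv A (fun p => s / F * f p) p = s / F * mv A f p := by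
        unfold mv
        rw [mul_sum]
        exact sum_congr rfl fun q _ => by ring
      rw [h3]
      field_simp
    rw [h2, abs_mul, abs_of_nonneg hθ0]
    calc s / F * |mv A f p - r * F| ≤ 3 * s ^ 2 / (2 * N) * T :=
          mul_le_mul hθ h1 (abs_nonneg _) (by positivity)
      _ = 1 := by
          rw [hT]
          field_simp
  · rw [← mul_sum, ← hFdef]
    field_simp

end Smo
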