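import Pool.Agent.Smo.Core

/-!
# Smo.Asym: the choice of the parameters
-/

namespace Smo

open Finset Filter

theorem ev_rpow {a b : ℝ} (C : ℝ) (hab : a < b) : ∀ᶠ y : ℝ in atTop, C * y ^ a ≤ y ^ b := by
  filter_upwards [(tendsto_rpow_atTop (sub_pos.2 hab)).eventually_ge_atTop C, eventually_gt_atTop (0 : ℝ)]
    with y h1 h2
  have h3 : y ^ b = y ^ (b - a) * y ^ a := by
    rw [← Real.rpow_add h2]
    congr 1
    ring
  rw [h3]
  exact mul_le_mul_of_nonneg_right h1 (Real.rpow_nonneg h2.le _)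

theorem ev_log {ε : ℝ} (C : ℝ) (hC : 0 < C) (hε : 0 < ε) : ∀ᶠ y : ℝ in atTop, C * Real.log y ≤ y ^ ε := by
  have h := (isLittleO_log_rpow_atTop hε).bound (c := 1 / C) (by positivity)
  filter_upwards [h, eventually_gt_atTop (1 : ℝ)] with y h1 h2
  rw [Real.norm_of_nonneg (Real.log_nonneg h2.le), Real.norm_of_nonneg (Real.rpow_nonneg (by linarith) _)] at h1
  have h3 := mul_le_mul_of_nonneg_left h1 hC.le
  have h4 : C * (1 / C * y ^ ε) = y ^ ε := by
    field_simp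
  linarith

theorem ev_exp (C a : ℝ) (hC : 0 < C) : ∀ᶠ y : ℝ in atTop, C * y ^ a ≤ Real.exp (y / 8) := by
  have h := (isLittleO_rpow_exp_pos_mul_atTop a (show (0 : ℝ) < 1 / 8 by norm_num)).bound (c := 1 / C) (by positivity)
  filter_upwards [h, eventually_gt_atTop (0 : ℝ)] with y h1 h2
  rw [Real.norm_of_nonneg (Real.rpow_nonneg h2.le _), Real.norm_of_nonneg (Real.exp_pos _).le] at h1
  have h3 := mul_le_mul_of_nonneg_left h1 hC.le
  have h4 : C * (1 / C * Real.exp (1 / 8 * y)) = Real.exp (y / 8) := by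
    rw [show 1 / 8 * y = y / 8 by ring]
    field_simp
  linarith

theorem ev_conc {γ : ℝ} (hγ : 0 < γ) : ∀ᶠ s : ℝ in atTop, 8 * s * Real.exp (-(s ^ γ / 8)) ≤ 1 := by
  filter_upwards [ev_log 16 (by norm_num) hγ, eventually_ge_atTop (8 : ℝ)] with s h1 h2
  have hs : 0 < s := by linarith
  have h3 : Real.log 8 ≤ Real.log s := Real.log_le_log (by norm_num) h2
  have h4 : Real.log (8 * s) ≤ s ^ γ / 8 := by
    rw [Real.log_mul (by norm_num) hs.ne']
    linarith
  have h5 : 8 * s ≤ Real.exp (s ^ γ / 8) := by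
    rw [← Real.exp_log (show (0 : ℝ) < 8 * s by positivity)]
    exact Real.exp_le_exp.mpr h4
  calc 8 * s * Real.exp (-(s ^ γ / 8)) ≤ Real.exp (s ^ γ / 8) * Real.exp (-(s ^ γ / 8)) :=
        mul_le_mul_of_nonneg_right h5 (Real.exp_pos _).le
    _ = 1 := by rw [← Real.exp_add]; simp

theorem asym {σ τ : ℝ} (hσ : 0 < σ) (hτ : 0 ≤ τ) (h : 3 * σ + 4 * τ < 4) :
    ∀ᶠ y : ℝ in atTop, ∃ (s D Lam lam κ : ℝ) (m : ℕ), y ^ σ ≤ s / 2 ∧ 1 ≤ s ∧ 3 * s ^ 2 / (2 * Real.exp y) ≤ 1 ∧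
      4 ≤ D ∧ D ≤ 4 * s ∧ 8 * Real.exp (-(s / 16)) ≤ 1 ∧ 8 * s * Real.exp (-(D ^ 2 / (8 * s))) ≤ 1 ∧
      3 * (2 * s * (2 * D + 2)) ≤ 2 * m ∧ 2 * ((4 * s ^ 2 + 1) / Real.exp (-(y ^ τ))) ^ m ≤ Lam ∧
      lam = 2 * Real.exp y / (3 * s ^ 3) ∧ 1 ≤ lam ∧ 0 ≤ κ ∧
      (∀ j : ℕ, 2 ≤ j → (1 / Real.exp (-(y ^ τ))) ^ (j ^ 2) ≤ κ * lam ^ j ∨ Lam ≤ κ * lam ^ j) ∧
      4 * (κ * Real.exp 1) ≤ 1 / Real.exp y := by
  obtain ⟨g, hg⟩ : ∃ g, g = 2 - 2 * τ - 3 * σ / 2 := ⟨_, rfl⟩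
  have hg0 : 0 < g := by linarith
  have hτ1 : τ < 1 := by linarith
  -- the exponent of `D`
  obtain ⟨β, hβ1, hβ2, hβ3⟩ : ∃ β : ℝ, 1 / 2 < β ∧ β < 1 ∧ σ * (1 + β) + 2 * τ + g / 2 < 2 := by
    refine ⟨1 / 2 + min (1 / 4) (g / (4 * σ)), ?_, ?_, ?_⟩
    · have : 0 < min (1 / 4) (g / (4 * σ)) := lt_min (by norm_num) (by positivity)
      linarith
    · have := min_le_left (1 / 4) (g / (4 * σ))
      linarith
    · have h1 := min_le_right (1 / 4) (g / (4 * σ))
      have h2 := mul_le_mul_of_nonneg_left h1 hσ.le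
      have h3 : σ * (g / (4 * σ)) = g / 4 := by
        field_simp
      have h4 : σ * (1 + (1 / 2 + min (1 / 4) (g / (4 * σ)))) = 3 * σ / 2 + σ * min (1 / 4) (g / (4 * σ)) := by
        ring
      rw [h4]
      linarith
  obtain ⟨ε, hε⟩ : ∃ ε, ε = g / 2 := ⟨_, rfl⟩
  have hε0 : 0 < ε := by linarith
  rw [← hε] at hβ3
  have htend : Tendsto (fun y : ℝ => 2 * y ^ σ) atTop atTop :=
    (tendsto_rpow_atTop hσ).const_mul_atTop (by norm_num)
  filter_upwards [htend.eventually (ev_conc (show 0 < 2 * β - 1 by linarith)),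
    htend.eventually (ev_rpow 4 (show (0 : ℝ) < β by linarith)),
    htend.eventually_ge_atTop 64,
    ev_exp 12 (3 * σ) (by norm_num), eventually_ge_atTop (5 : ℝ),
    ev_rpow 2 (show τ < τ + ε by linarith),
    ev_rpow 1280 (show σ * (1 + β) + τ + ε < 2 - τ by linarith),
    ev_rpow 32 (show 1 < 2 - τ by linarith),
    ev_rpow 128 (show 0 < 2 - τ by linarith),
    ev_log (8 * (σ + 1)) (by linarith) (show 0 < τ + ε by linarith),
    ev_rpow 20 (show 0 < τ + ε by linarith)] with y a1 a2 a3 a4 a5 a6 a7 a8 a9 a10 a11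
  have hy0 : 0 < y := by linarith
  obtain ⟨s, hs⟩ : ∃ s : ℝ, s = 2 * y ^ σ := ⟨_, rfl⟩
  rw [← hs] at a1 a2 a3
  have hs0 : 0 < s := by linarith
  rw [Real.rpow_zero, mul_one] at a2 a9 a11
  rw [Real.rpow_one] at a8
  obtain ⟨D, hD⟩ : ∃ D : ℝ, D = s ^ β := ⟨_, rfl⟩
  rw [← hD] at a2
  have hD1 : D ≤ s := by
    rw [hD]
    calc s ^ β ≤ s ^ (1 : ℝ) := Real.rpow_le_rpow_of_exponent_le (by linarith) hβ2.le
      _ = s := Real.rpow_one s
  have hDD : D ^ 2 / (8 * s) = s ^ (2 * β - 1) / 8 := by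
    have e1 : D ^ 2 = s ^ (2 * β - 1) * s := by
      rw [hD, ← Real.rpow_natCast, ← Real.rpow_mul hs0.le]
      conv_rhs => rw [← Real.rpow_one s]
      rw [← Real.rpow_mul hs0.le, ← Real.rpow_add hs0]
      congr 1
      push_cast
      ring
    rw [e1]
    field_simp
  have hs3 : 3 * s ^ 3 / 2 ≤ Real.exp (y / 8) := by
    have e1 : s ^ 3 = 8 * y ^ (3 * σ) := by
      rw [hs, mul_pow]
      have e2 : (y ^ σ) ^ 3 = y ^ (3 * σ) := by
        rw [← Real.rpow_natCast, ← Real.rpow_mul hy0.le]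
        congr 1
        push_cast
        ring
      rw [e2]
      norm_num
    rw [e1]
    linarith
  have hexp : Real.exp (7 * y / 8) * Real.exp (y / 8) = Real.exp y := by
    rw [← Real.exp_add]
    congr 1
    ring
  obtain ⟨lam, hlam⟩ : ∃ lam : ℝ, lam = 2 * Real.exp y / (3 * s ^ 3) := ⟨_, rfl⟩
  have hlam7 : Real.exp (7 * y / 8) ≤ lam := by
    rw [hlam, le_div_iff₀ (by positivity)]
    have := mul_le_mul_of_nonneg_left hs3 (Real.exp_pos (7 * y / 8)).le
    rw [hexp] at this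
    linarith
  have hlam1 : 1 ≤ lam := le_trans (Real.one_le_exp (by positivity)) hlam7
  obtain ⟨m, hm⟩ : ∃ m : ℕ, m = ⌈3 * s * (2 * D + 2)⌉₊ := ⟨_, rfl⟩
  have hm1 : 3 * s * (2 * D + 2) ≤ m := by
    rw [hm]
    exact Nat.le_ceil _
  have hm2 : (m : ℝ) ≤ 3 * s * (2 * D + 2) + 1 := by
    rw [hm]
    exact (Nat.ceil_lt_add_one (by positivity)).le
  obtain ⟨Lam, hLam⟩ : ∃ Lam : ℝ, Lam = 2 * ((4 * s ^ 2 + 1) / Real.exp (-(y ^ τ))) ^ m := ⟨_, rfl⟩
  have hexpy : Real.exp (y / 8) ≤ Real.exp y := Real.exp_le_exp.mpr (by linarith)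
  -- bound for `Lam`
  have hlog : Real.log (4 * s ^ 2 + 1) + y ^ τ ≤ y ^ (τ + ε) := by
    have e1 : Real.log (4 * s ^ 2 + 1) ≤ Real.log (32 * y ^ (2 * σ)) := by
      apply Real.log_le_log (by positivity)
      have e2 : s ^ 2 = 4 * y ^ (2 * σ) := by
        rw [hs, mul_pow]
        have e3 : (y ^ σ) ^ 2 = y ^ (2 * σ) := by
          rw [← Real.rpow_natCast, ← Real.rpow_mul hy0.le]
          congr 1
          push_cast
          ring
        rw [e3]
        norm_num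
      have e4 : 1 ≤ y ^ (2 * σ) := Real.one_le_rpow (by linarith) (by linarith)
      rw [e2]
      linarith
    have e5 : Real.log (32 * y ^ (2 * σ)) = Real.log 32 + 2 * σ * Real.log y := by
      rw [Real.log_mul (by norm_num) (by positivity), Real.log_rpow hy0]
    have e6 : Real.log 32 ≤ 5 := by
      have : Real.log 32 = 5 * Real.log 2 := by
        rw [show (32 : ℝ) = 2 ^ (5 : ℕ) by norm_num, Real.log_pow]
        norm_num
      rw [this]
      linarith [Real.log_two_lt_d9]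
    have e7 : 0 ≤ Real.log y := Real.log_nonneg (by linarith)
    have e8 : 2 * σ * Real.log y ≤ (1 / 4) * y ^ (τ + ε) := by
      have : 8 * (σ + 1) * Real.log y = 8 * σ * Real.log y + 8 * Real.log y := by ring
      linarith
    linarith
  have hsD : s * D ≤ 4 * y ^ (σ * (1 + β)) := by
    have e1 : s * D = s ^ (1 + β) := by
      rw [hD]
      conv_lhs => rw [← Real.rpow_one s]
      rw [← Real.rpow_mul hs0.le, one_mul, ← Real.rpow_add hs0]
    have e2 : s ^ (1 + β) = 2 ^ (1 + β) * y ^ (σ * (1 + β)) := by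
      rw [hs, Real.mul_rpow (by norm_num) (Real.rpow_nonneg hy0.le _), ← Real.rpow_mul hy0.le]
    have e3 : (2 : ℝ) ^ (1 + β) ≤ 4 := by
      calc (2 : ℝ) ^ (1 + β) ≤ 2 ^ (2 : ℝ) := Real.rpow_le_rpow_of_exponent_le (by norm_num) (by linarith)
        _ = 4 := by norm_num
    rw [e1, e2]
    exact mul_le_mul_of_nonneg_right e3 (Real.rpow_nonneg hy0.le _)
  have hm3 : (m : ℝ) ≤ 40 * y ^ (σ * (1 + β)) := by
    have e1 : 3 * s * (2 * D + 2) + 1 ≤ 10 * (s * D) := by nlinarith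
    linarith
  have hLamB : 12 * Lam * Real.exp y ≤ Real.exp (7 / 64 * y ^ (2 - τ)) := by
    have e1 : (4 * s ^ 2 + 1) / Real.exp (-(y ^ τ)) = Real.exp (Real.log (4 * s ^ 2 + 1) + y ^ τ) := by
      rw [Real.exp_add, Real.exp_log (by positivity), Real.exp_neg, div_inv_eq_mul]
    have e2 : Lam = 2 * Real.exp (m * (Real.log (4 * s ^ 2 + 1) + y ^ τ)) := by
      rw [hLam, e1, ← Real.exp_nat_mul]
    have e3 : (m : ℝ) * (Real.log (4 * s ^ 2 + 1) + y ^ τ) ≤ 40 * y ^ (σ * (1 + β) + τ + ε) := by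
      have f1 : 0 ≤ Real.log (4 * s ^ 2 + 1) + y ^ τ := by
        have : 0 ≤ Real.log (4 * s ^ 2 + 1) := Real.log_nonneg (by nlinarith)
        have := Real.rpow_nonneg hy0.le τ
        linarith
      calc (m : ℝ) * (Real.log (4 * s ^ 2 + 1) + y ^ τ)
          ≤ 40 * y ^ (σ * (1 + β)) * y ^ (τ + ε) := mul_le_mul hm3 hlog f1 (by positivity)
        _ = 40 * y ^ (σ * (1 + β) + τ + ε) := by
            rw [mul_assoc, ← Real.rpow_add hy0]
            congr 2
            ring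
    have e4 : (24 : ℝ) ≤ Real.exp 4 := by
      have h1 := Real.add_one_le_exp (1 : ℝ)
      have h2 : Real.exp 4 = (Real.exp 1) ^ 4 := by
        rw [← Real.exp_nat_mul]
        norm_num
      rw [h2]
      have h3 : (2.7 : ℝ) ≤ Real.exp 1 := by linarith [Real.exp_one_gt_d9]
      calc (24 : ℝ) ≤ 2.7 ^ 4 := by norm_num
        _ ≤ (Real.exp 1) ^ 4 := pow_le_pow_left₀ (by norm_num) h3 4
    rw [e2]
    calc 12 * (2 * Real.exp (m * (Real.log (4 * s ^ 2 + 1) + y ^ τ))) * Real.exp y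
        = 24 * (Real.exp (m * (Real.log (4 * s ^ 2 + 1) + y ^ τ)) * Real.exp y) := by ring
      _ ≤ Real.exp 4 * (Real.exp (m * (Real.log (4 * s ^ 2 + 1) + y ^ τ)) * Real.exp y) :=
          mul_le_mul_of_nonneg_right e4 (by positivity)
      _ = Real.exp (4 + (m * (Real.log (4 * s ^ 2 + 1) + y ^ τ) + y)) := by
          rw [← Real.exp_add, ← Real.exp_add]
      _ ≤ Real.exp (7 / 64 * y ^ (2 - τ)) := by
          apply Real.exp_le_exp.mpr
          linarith
  refine ⟨s, D, Lam, lam, 1 / (12 * Real.exp y), m, ?_, by linarith, ?_, a2, by linarith, ?_, ?_, ?_, hLam.ge, hlam,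
    hlam1, by positivity, ?_, ?_⟩
  · rw [hs]
    linarith
  · rw [div_le_one (by positivity)]
    have : s ^ 2 ≤ s ^ 3 := by nlinarith [sq_nonneg s]
    linarith
  · have e1 : (8 : ℝ) ≤ Real.exp (s / 16) := by
      have e4 : Real.exp 4 ≤ Real.exp (s / 16) := Real.exp_le_exp.mpr (by linarith)
      have h2 : Real.exp 4 = (Real.exp 1) ^ 4 := by
        rw [← Real.exp_nat_mul]
        norm_num
      have h3 : (2 : ℝ) ≤ Real.exp 1 := by linarith [Real.exp_one_gt_d9]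
      have h4 : (2 : ℝ) ^ 4 ≤ (Real.exp 1) ^ 4 := pow_le_pow_left₀ (by norm_num) h3 4
      rw [h2] at e4
      linarith
    calc 8 * Real.exp (-(s / 16)) ≤ Real.exp (s / 16) * Real.exp (-(s / 16)) :=
          mul_le_mul_of_nonneg_right e1 (Real.exp_pos _).le
      _ = 1 := by rw [← Real.exp_add]; simp
  · rw [hDD]
    exact a1
  · linarith
  · intro j hj
    have hj2 : (2 : ℝ) ≤ j := by exact_mod_cast hj
    have hlj : Real.exp (7 * y / 8 * j) ≤ lam ^ j := by
      rw [mul_comm, Real.exp_nat_mul]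
      exact pow_le_pow_left₀ (Real.exp_pos _).le hlam7 j
    by_cases hjy : (j : ℝ) * y ^ τ ≤ y / 8
    · left
      have e1 : (1 / Real.exp (-(y ^ τ))) ^ (j ^ 2) = Real.exp ((j : ℝ) ^ 2 * y ^ τ) := by
        rw [Real.exp_neg, one_div, inv_inv, ← Real.exp_nat_mul]
        push_cast
        rfl
      rw [e1, div_mul_eq_mul_div, one_mul, le_div_iff₀ (by positivity)]
      have e2 : (j : ℝ) ^ 2 * y ^ τ ≤ j * (y / 8) := by
        have := mul_le_mul_of_nonneg_left hjy (show (0 : ℝ) ≤ j by positivity)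
        nlinarith
      have e4 : (12 : ℝ) ≤ Real.exp (5 / 2) := by
        have h2 : Real.exp (5 / 2) = (Real.exp (1 / 2)) ^ 5 := by
          rw [← Real.exp_nat_mul]
          norm_num
        have h3 : (1.64872 : ℝ) ≤ Real.exp (1 / 2) := by
          have h5 : Real.exp 1 = (Real.exp (1 / 2)) ^ 2 := by
            rw [← Real.exp_nat_mul]
            norm_num
          have h6 : (1.64872 : ℝ) ^ 2 ≤ (Real.exp (1 / 2)) ^ 2 := by
            rw [← h5]
            linarith [Real.exp_one_gt_d9]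
          exact (pow_le_pow_iff_left₀ (by norm_num) (Real.exp_pos _).le two_ne_zero).mp h6
        rw [h2]
        calc (12 : ℝ) ≤ 1.64872 ^ 5 := by norm_num
          _ ≤ (Real.exp (1 / 2)) ^ 5 := pow_le_pow_left₀ (by norm_num) h3 5
      calc Real.exp ((j : ℝ) ^ 2 * y ^ τ) * (12 * Real.exp y)
          ≤ Real.exp (j * (y / 8)) * (Real.exp (5 / 2) * Real.exp y) := by
            apply mul_le_mul (Real.exp_le_exp.mpr e2) _ (by positivity) (Real.exp_pos _).le
            exact mul_le_mul_of_nonneg_right e4 (Real.exp_pos _).le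
        _ = Real.exp (j * (y / 8) + (5 / 2 + y)) := by rw [← Real.exp_add, ← Real.exp_add]
        _ ≤ Real.exp (7 * y / 8 * j) := by
            apply Real.exp_le_exp.mpr
            nlinarith
        _ ≤ lam ^ j := hlj
    · right
      push Not at hjy
      rw [div_mul_eq_mul_div, one_mul, le_div_iff₀ (by positivity)]
      have e1 : 7 / 64 * y ^ (2 - τ) ≤ 7 * y / 8 * j := by
        have f1 : y ^ (2 - τ) * y ^ τ = y ^ 2 := by
          rw [← Real.rpow_add hy0, ← Real.rpow_natCast]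
          congr 1
          push_cast
          ring
        have f2 : 0 < y ^ τ := Real.rpow_pos_of_pos hy0 τ
        have f3 : y ^ (2 - τ) * y ^ τ ≤ 8 * y * j * y ^ τ := by
          rw [f1]
          nlinarith
        have f4 : y ^ (2 - τ) ≤ 8 * y * j := le_of_mul_le_mul_right f3 f2
        linarith
      calc Lam * (12 * Real.exp y) = 12 * Lam * Real.exp y := by ring
        _ ≤ Real.exp (7 / 64 * y ^ (2 - τ)) := hLamB
        _ ≤ Real.exp (7 * y / 8 * j) := Real.exp_le_exp.mpr e1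
        _ ≤ lam ^ j := hlj
  · rw [div_mul_eq_mul_div, one_mul, le_div_iff₀ (Real.exp_pos y)]
    have h1 : Real.exp 1 ≤ 3 := by linarith [Real.exp_one_lt_d9]
    have h2 : 4 * (Real.exp 1 / (12 * Real.exp y)) * Real.exp y = Real.exp 1 / 3 := by
      have := (Real.exp_pos y).ne'
      field_simp
      ring
    rw [h2]
    linarith

end Smo
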