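import Pool.Agent.Smo.Main
import Pool.Agent.Smo.Window

/-!
# Smo.Core: the bound with explicit parameters
-/

namespace Smo

open Finset

theorem core {n : ℕ} (hn : 1 ≤ n) {δ : ℝ} (hδ : 0 < δ) (hδ1 : δ ≤ 1) {P : Sym2 (Fin n) → ℝ}
    (hP : ∀ e ∈ prs (univ : Finset (Fin n)), δ ≤ P e ∧ P e ≤ 1 - δ) {s D Lam lam κ : ℝ} {m : ℕ} (hs : 1 ≤ s)
    (hη : 3 * s ^ 2 / (2 * n) ≤ 1) (hD : 4 ≤ D) (hD4 : D ≤ 4 * s) (hc1 : 8 * Real.exp (-(s / 16)) ≤ 1)
    (hc2 : 8 * s * Real.exp (-(D ^ 2 / (8 * s))) ≤ 1) (hm : 3 * (2 * s * (2 * D + 2)) ≤ 2 * m)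
    (hLam : 2 * ((4 * s ^ 2 + 1) / δ) ^ m ≤ Lam) (hlam : lam = 2 * n / (3 * s ^ 3)) (hlam1 : 1 ≤ lam)
    (hκ0 : 0 ≤ κ) (hκ : ∀ j : ℕ, 2 ≤ j → (1 / δ) ^ (j ^ 2) ≤ κ * lam ^ j ∨ Lam ≤ κ * lam ^ j) :
    Ex P (prs univ) (fun ω => ind (∀ S : Finset (Fin n), s / 2 ≤ S.card → ¬ Reg ω S)) ≤
      4 * (κ * Real.exp 1) := by
  have hn0 : (1 : ℝ) ≤ n := by exact_mod_cast hn
  have hs0 : 0 < s := by linarith
  set A : Fin n → Fin n → ℝ := fun p q => if p = q then 0 else P s(p, q) with hA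
  have hPmem : ∀ p q : Fin n, p ≠ q → δ ≤ P s(p, q) ∧ P s(p, q) ≤ 1 - δ := fun p q h =>
    hP _ (mem_prs.mpr ⟨mem_univ _, mem_univ _, h⟩)
  have hA0 : ∀ p q, 0 ≤ A p q := by
    intro p q
    rw [hA]
    dsimp only
    split_ifs with h
    · exact le_refl 0
    · linarith [(hPmem p q h).1]
  have hA1 : ∀ p q, A p q ≤ 1 := by
    intro p q
    rw [hA]
    dsimp only
    split_ifs with h
    · exact zero_le_one
    · linarith [(hPmem p q h).2]
  have hAs : ∀ p q, A p q = A q p := by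
    intro p q
    rw [hA]
    dsimp only
    by_cases h : p = q
    · rw [if_pos h, if_pos h.symm]
    · rw [if_neg h, if_neg (Ne.symm h), Sym2.eq_swap]
  obtain ⟨c, f, hf, hw, hsum⟩ := window A hA0 hA1 hAs hs (by rw [Fintype.card_fin]; exact hn)
  rw [Fintype.card_fin] at hf
  set η : ℝ := 3 * s ^ 2 / (2 * n) with hηdef
  set W : Finset (Fin n) := univ.filter fun p => 0 < f p with hW
  have hf01 : ∀ v ∈ W, 0 ≤ f v ∧ f v ≤ 1 := fun v _ => ⟨(hf v).1, (hf v).2.trans hη⟩
  have hfz : ∀ v, v ∉ W → f v = 0 := by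
    intro v hv
    rw [hW, mem_filter] at hv
    push Not at hv
    exact le_antisymm (hv (mem_univ v)) (hf v).1
  have hsW : ∑ v ∈ W, f v = s := by
    rw [← hsum]
    apply sum_subset (subset_univ W)
    intro v _ hv
    exact hfz v hv
  have hwW : ∀ v ∈ W, |∑ u ∈ W.erase v, P s(v, u) * f u - c| ≤ 1 := by
    intro v hv
    have h1 : Swp.mv A f v = ∑ u ∈ W.erase v, P s(v, u) * f u := by
      unfold Swp.mv
      symm
      have h2 : ∑ u ∈ W.erase v, P s(v, u) * f u = ∑ u ∈ W.erase v, A v u * f u := by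
        apply sum_congr rfl
        intro u hu
        rw [hA]
        dsimp only
        rw [if_neg (ne_of_mem_erase hu).symm]
      rw [h2]
      apply sum_subset (subset_univ _)
      intro u _ hu
      by_cases huv : v = u
      · rw [hA]
        dsimp only
        rw [if_pos huv, zero_mul]
      · have : u ∉ W := fun h => hu (mem_erase.mpr ⟨Ne.symm huv, h⟩)
        rw [hfz u this, mul_zero]
    rw [← h1]
    exact hw v (mem_filter.mp hv).2
  have ht0 : 0 ≤ D / (4 * s) := by positivity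
  have ht1 : D / (4 * s) ≤ 1 := by
    rw [div_le_one (by positivity)]
    exact hD4
  have hgood : 1 / 2 ≤ Ex f W (fun S => ind (Good P s c D S)) := by
    apply Ex_good hf01 _ hsW hwW ht0 ht1 hc1
    · refine le_trans ?_ hc2
      apply mul_le_mul_of_nonneg_left _ (by positivity)
      apply Real.exp_le_exp.mpr
      have e1 : (D / (4 * s)) ^ 2 * s - D / (4 * s) * (D - 1) = (-(3 * D ^ 2) + 4 * D) / (16 * s) := by
        field_simp
        ring
      have e2 : -(D ^ 2 / (8 * s)) = -(2 * D ^ 2) / (16 * s) := by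
        field_simp
        ring
      rw [e1, e2]
      apply div_le_div_of_nonneg_right _ (by positivity)
      nlinarith
    · intro u _ v _ huv
      have := hPmem u v huv
      constructor <;> linarith
  have hprs : ∀ S : Finset (Fin n), prs S ⊆ prs univ := by
    intro S e
    induction e using Sym2.ind with
    | _ a b =>
      intro he
      rw [mem_prs] at he ⊢
      exact ⟨mem_univ _, mem_univ _, he.2.2⟩
  have hLam0 : 0 < Lam := lt_of_lt_of_le (by positivity) hLam
  have hq : ∀ S ⊆ W, Good P s c D S → 1 ≤ Lam * Ex P (prs univ) (fun ω => ind (Reg ω S)) := by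
    intro S _ hS
    obtain ⟨h1, h2, h3⟩ := hS
    have hSpos : 0 < S.card := by
      have : (0 : ℝ) < S.card := by linarith
      exact_mod_cast this
    have hlow := low hδ hδ1 hP hSpos (hprs S) h3 ht0 ht1 (D1 := D) (m := m) (by
      refine le_trans ?_ hc2
      have e3 : Real.exp ((D / (4 * s)) ^ 2 * S.card - D / (4 * s) * D) ≤ Real.exp (-(D ^ 2 / (8 * s))) := by
        apply Real.exp_le_exp.mpr
        have e4 : (D / (4 * s)) ^ 2 * S.card ≤ (D / (4 * s)) ^ 2 * (2 * s) :=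
          mul_le_mul_of_nonneg_left h2 (sq_nonneg _)
        have e5 : (D / (4 * s)) ^ 2 * (2 * s) - D / (4 * s) * D = -(D ^ 2 / (8 * s)) := by
          field_simp
          ring
        linarith
      calc 4 * (S.card : ℝ) * Real.exp ((D / (4 * s)) ^ 2 * S.card - D / (4 * s) * D)
          ≤ 8 * s * Real.exp (-(D ^ 2 / (8 * s))) := by
            apply mul_le_mul (by linarith) e3 (Real.exp_pos _).le (by positivity)
        _ = _ := rfl) (by
      refine le_trans ?_ hm
      have : (S.card : ℝ) * (D + D + 2) ≤ 2 * s * (2 * D + 2) := by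
        rw [← two_mul]
        exact mul_le_mul_of_nonneg_right h2 (by linarith)
      linarith)
    have hq0 : 0 ≤ Ex P (prs univ) (fun ω => ind (Reg ω S)) :=
      Ex_nonneg (fun e he => ⟨by linarith [(hP e he).1], by linarith [(hP e he).2]⟩) fun ω _ => ind_nonneg _
    have hcard : (((prs S).card : ℝ) + 1) / δ ≤ (4 * s ^ 2 + 1) / δ := by
      apply div_le_div_of_nonneg_right _ hδ.le
      have h4 : ((prs S).card : ℝ) ≤ (S.card : ℝ) ^ 2 := by exact_mod_cast card_prs_le S
      have h5 : (S.card : ℝ) ^ 2 ≤ (2 * s) ^ 2 := pow_le_pow_left₀ (Nat.cast_nonneg _) h2 2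
      linarith
    have h6 : ((((prs S).card : ℝ) + 1) / δ) ^ m ≤ ((4 * s ^ 2 + 1) / δ) ^ m :=
      pow_le_pow_left₀ (by positivity) hcard m
    have h7 := mul_le_mul_of_nonneg_right h6 hq0
    have h8 := mul_le_mul_of_nonneg_right hLam hq0
    linarith
  have hM : Ex f W (fun S => Ex f W (fun S' => lam ^ (S ∩ S').card)) ≤ Real.exp 1 := by
    refine (Ex_pair hf01 hlam1 (η := η) (s := s) (fun v _ => (hf v).2) hsW.le (by positivity)).trans ?_
    apply Real.exp_le_exp.mpr
    rw [hlam, hηdef]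
    apply le_of_eq
    field_simp
  have h := second hδ hδ1 hP (hprs W) hf01 hgood hLam0 hq hlam1 hM hκ0 (fun j hj _ => min_le_iff.mpr (hκ j hj))
  refine le_trans ?_ h
  apply Ex_mono (fun e he => ⟨by linarith [(hP e he).1], by linarith [(hP e he).2]⟩)
  intro ω _
  by_cases hR : ∀ S : Finset (Fin n), s / 2 ≤ S.card → ¬ Reg ω S
  · rw [ind_of hR, ind_of (fun S _ hS => hR S hS)]
  · rw [ind_not hR]
    exact ind_nonneg _

end Smo
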