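import Mathlib

/-!
# Smo.Ex: finite product measures on subsets

`Ex p s F` is the expectation of `F ω` for the random subset `ω` of `s` that contains every `e ∈ s` independently with probability `p e`.
-/

namespace Smo

open Finset

variable {E : Type*} [DecidableEq E]

/-- The expectation over a random subset of `s`. -/
noncomputable def Ex (p : E → ℝ) (s : Finset E) (F : Finset E → ℝ) : ℝ :=
  ∑ α ∈ s.powerset, (∏ e ∈ s, if e ∈ α then p e else 1 - p e) * F α

theorem Ex_empty (p : E → ℝ) (F : Finset E → ℝ) : Ex p ∅ F = F ∅ := by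
  simp [Ex]

theorem Ex_insert (p : E → ℝ) {s : Finset E} {e : E} (he : e ∉ s) (F : Finset E → ℝ) :
    Ex p (insert e s) F = (1 - p e) * Ex p s F + p e * Ex p s (fun α => F (insert e α)) := by
  unfold Ex
  rw [sum_powerset_insert he, mul_sum, mul_sum]
  congr 1
  · apply sum_congr rfl
    intro α hα
    have h1 : e ∉ α := fun h => he (mem_powerset.mp hα h)
    rw [prod_insert he, if_neg h1]
    ring
  · apply sum_congr rfl
    intro α hα
    rw [prod_insert he, if_pos (mem_insert_self e α)]
    have h2 : ∏ x ∈ s, (if x ∈ insert e α then p x else 1 - p x) = ∏ x ∈ s, (if x ∈ α then p x else 1 - p x) := by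
      apply prod_congr rfl
      intro x hx
      have hxe : x ≠ e := fun h => he (h ▸ hx)
      simp only [mem_insert, hxe, false_or]
    rw [h2]
    ring

theorem Ex_add (p : E → ℝ) (s : Finset E) (F G : Finset E → ℝ) :
    Ex p s (fun α => F α + G α) = Ex p s F + Ex p s G := by
  unfold Ex
  rw [← sum_add_distrib]
  exact sum_congr rfl fun α _ => by ring

theorem Ex_mul_left (p : E → ℝ) (s : Finset E) (c : ℝ) (F : Finset E → ℝ) :
    Ex p s (fun α => c * F α) = c * Ex p s F := by
  unfold Ex
  rw [mul_sum]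
  exact sum_congr rfl fun α _ => by ring

theorem Ex_sum {κ : Type*} (p : E → ℝ) (s : Finset E) (t : Finset κ) (F : κ → Finset E → ℝ) :
    Ex p s (fun α => ∑ k ∈ t, F k α) = ∑ k ∈ t, Ex p s (F k) := by
  unfold Ex
  rw [sum_comm]
  exact sum_congr rfl fun α _ => by rw [mul_sum]

theorem Ex_congr (p : E → ℝ) (s : Finset E) {F G : Finset E → ℝ} (h : ∀ α ⊆ s, F α = G α) :
    Ex p s F = Ex p s G := by
  unfold Ex
  exact sum_congr rfl fun α hα => by rw [h α (mem_powerset.mp hα)]

theorem wt_nonneg {p : E → ℝ} {s : Finset E} (hp : ∀ e ∈ s, 0 ≤ p e ∧ p e ≤ 1) (α : Finset E) :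
    0 ≤ ∏ e ∈ s, (if e ∈ α then p e else 1 - p e) := by
  apply prod_nonneg
  intro e he
  split_ifs
  · exact (hp e he).1
  · linarith [(hp e he).2]

theorem Ex_mono {p : E → ℝ} {s : Finset E} (hp : ∀ e ∈ s, 0 ≤ p e ∧ p e ≤ 1) {F G : Finset E → ℝ}
    (h : ∀ α ⊆ s, F α ≤ G α) : Ex p s F ≤ Ex p s G := by
  unfold Ex
  exact sum_le_sum fun α hα => mul_le_mul_of_nonneg_left (h α (mem_powerset.mp hα)) (wt_nonneg hp α)

theorem Ex_nonneg {p : E → ℝ} {s : Finset E} (hp : ∀ e ∈ s, 0 ≤ p e ∧ p e ≤ 1) {F : Finset E → ℝ}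
    (h : ∀ α ⊆ s, 0 ≤ F α) : 0 ≤ Ex p s F := by
  unfold Ex
  exact sum_nonneg fun α hα => mul_nonneg (wt_nonneg hp α) (h α (mem_powerset.mp hα))

/-- Exponential moments. -/
theorem Ex_prod (p : E → ℝ) (s : Finset E) (g : E → ℝ) :
    Ex p s (fun α => ∏ e ∈ α, g e) = ∏ e ∈ s, (1 - p e + p e * g e) := by
  induction s using Finset.induction_on with
  | empty => simp [Ex_empty]
  | insert e s he ih =>
    rw [Ex_insert p he, ih, prod_insert he]
    have h1 : Ex p s (fun α => ∏ x ∈ insert e α, g x) = g e * Ex p s (fun α => ∏ x ∈ α, g x) := by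
      rw [← Ex_mul_left]
      apply Ex_congr
      intro α hα
      rw [prod_insert (fun h => he (hα h))]
    rw [h1, ih]
    ring

theorem Ex_one (p : E → ℝ) (s : Finset E) : Ex p s (fun _ => 1) = 1 := by
  have h := Ex_prod p s (fun _ => 1)
  simp only [prod_const_one, mul_one, sub_add_cancel] at h
  exact h

theorem Ex_const (p : E → ℝ) (s : Finset E) (c : ℝ) : Ex p s (fun _ => c) = c := by
  have h := Ex_mul_left p s c (fun _ => 1)
  rw [Ex_one, mul_one] at h
  exact h

/-- `F` depends only on the part of the set inside `B`. -/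
def Dep (B : Finset E) (F : Finset E → ℝ) : Prop := ∀ α, F α = F (α ∩ B)

theorem Dep.insert {B : Finset E} {F : Finset E → ℝ} (hF : Dep B F) (e : E) :
    Dep B (fun α => F (Insert.insert e α)) := by
  intro α
  show F (Insert.insert e α) = F (Insert.insert e (α ∩ B))
  rw [hF (Insert.insert e α), hF (Insert.insert e (α ∩ B))]
  congr 1
  ext x
  simp only [mem_inter, mem_insert]
  tauto

theorem Dep.insert_of_notMem {B : Finset E} {F : Finset E → ℝ} (hF : Dep B F) {e : E} (he : e ∉ B) (α : Finset E) :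
    F (Insert.insert e α) = F α := by
  rw [hF (Insert.insert e α), hF α]
  congr 1
  ext x
  simp only [mem_inter, mem_insert]
  constructor
  · rintro ⟨rfl | h, hB⟩
    · exact absurd hB he
    · exact ⟨h, hB⟩
  · exact fun h => ⟨Or.inr h.1, h.2⟩

/-- Two functions that share few coordinates are almost independent. -/
theorem Ex_mul_le {p : E → ℝ} {δ : ℝ} (hδ : 0 < δ) {B B' : Finset E} : ∀ (s : Finset E),
    (∀ e ∈ s, δ ≤ p e ∧ p e ≤ 1 - δ) → ∀ F G : Finset E → ℝ, (∀ α, 0 ≤ F α) → (∀ α, 0 ≤ G α) →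
    Dep B F → Dep B' G →
    Ex p s (fun α => F α * G α) ≤ (1 / δ) ^ (s ∩ (B ∩ B')).card * (Ex p s F * Ex p s G) := by
  intro s
  induction s using Finset.induction_on with
  | empty =>
    intro hp F G hF hG hB hB'
    simp [Ex_empty]
  | insert e s he ih =>
    intro hp F G hF hG hB hB'
    have hps : ∀ x ∈ s, δ ≤ p x ∧ p x ≤ 1 - δ := fun x hx => hp x (mem_insert_of_mem hx)
    have hpe := hp e (mem_insert_self e s)
    have hp01 : ∀ x ∈ s, 0 ≤ p x ∧ p x ≤ 1 := fun x hx => ⟨by linarith [(hps x hx).1], by linarith [(hps x hx).2]⟩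
    set F' : Finset E → ℝ := fun α => F (Insert.insert e α) with hF'
    set G' : Finset E → ℝ := fun α => G (Insert.insert e α) with hG'
    have hF'0 : ∀ α, 0 ≤ F' α := fun α => hF _
    have hG'0 : ∀ α, 0 ≤ G' α := fun α => hG _
    have i1 := ih hps F G hF hG hB hB'
    have i2 := ih hps F' G' hF'0 hG'0 (hB.insert e) (hB'.insert e)
    rw [Ex_insert p he, Ex_insert p he F, Ex_insert p he G]
    have a0 : 0 ≤ Ex p s F := Ex_nonneg hp01 fun α _ => hF α
    have b0 : 0 ≤ Ex p s G := Ex_nonneg hp01 fun α _ => hG α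
    have a1 : 0 ≤ Ex p s F' := Ex_nonneg hp01 fun α _ => hF'0 α
    have b1 : 0 ≤ Ex p s G' := Ex_nonneg hp01 fun α _ => hG'0 α
    have e1 : Ex p s (fun α => F (Insert.insert e α) * G (Insert.insert e α)) = Ex p s (fun α => F' α * G' α) := rfl
    rw [e1]
    change (1 - p e) * Ex p s (fun α => F α * G α) + p e * Ex p s (fun α => F' α * G' α) ≤
      (1 / δ) ^ (Insert.insert e s ∩ (B ∩ B')).card *
        (((1 - p e) * Ex p s F + p e * Ex p s F') * ((1 - p e) * Ex p s G + p e * Ex p s G'))
    set a := Ex p s F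
    set b := Ex p s G
    set a' := Ex p s F'
    set b' := Ex p s G'
    set c : ℝ := (1 / δ) ^ (s ∩ (B ∩ B')).card with hc
    have hc0 : 0 < c := by positivity
    have q0 : 0 < p e := by linarith [hpe.1]
    have q1 : 0 < 1 - p e := by linarith [hpe.2]
    have hL : (1 - p e) * Ex p s (fun α => F α * G α) + p e * Ex p s (fun α => F' α * G' α) ≤
        c * ((1 - p e) * (a * b) + p e * (a' * b')) := by
      have j1 := mul_le_mul_of_nonneg_left i1 q1.le
      have j2 := mul_le_mul_of_nonneg_left i2 q0.le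
      nlinarith
    refine hL.trans ?_
    by_cases heB : e ∈ B ∩ B'
    · have hcard : (Insert.insert e s ∩ (B ∩ B')).card = (s ∩ (B ∩ B')).card + 1 := by
        rw [insert_inter_of_mem heB, card_insert_of_notMem]
        exact fun h => he (mem_of_mem_inter_left h)
      rw [hcard, pow_succ, ← hc, mul_assoc]
      apply mul_le_mul_of_nonneg_left _ hc0.le
      rw [one_div, ← div_eq_inv_mul, le_div_iff₀ hδ]
      have k1 : δ * ((1 - p e) * (a * b)) ≤ (1 - p e) * ((1 - p e) * (a * b)) := by
        apply mul_le_mul_of_nonneg_right (by linarith [hpe.2])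
        positivity
      have k2 : δ * (p e * (a' * b')) ≤ p e * (p e * (a' * b')) := by
        apply mul_le_mul_of_nonneg_right hpe.1
        positivity
      have k3 : 0 ≤ (1 - p e) * p e * (a * b' + a' * b) := by positivity
      nlinarith
    · have hcard : (Insert.insert e s ∩ (B ∩ B')) = s ∩ (B ∩ B') := insert_inter_of_notMem heB
      rw [hcard, ← hc]
      apply mul_le_mul_of_nonneg_left _ hc0.le
      rw [mem_inter, not_and_or] at heB
      rcases heB with h | h
      · have : a' = a := Ex_congr p s fun α _ => hB.insert_of_notMem h α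
        rw [this]
        apply le_of_eq
        ring
      · have : b' = b := Ex_congr p s fun α _ => hB'.insert_of_notMem h α
        rw [this]
        apply le_of_eq
        ring


open Classical in
/-- The indicator of a proposition. -/
noncomputable def ind (P : Prop) : ℝ := if P then 1 else 0

theorem ind_of {P : Prop} (h : P) : ind P = 1 := by
  unfold ind
  exact if_pos h

theorem ind_not {P : Prop} (h : ¬ P) : ind P = 0 := by
  unfold ind
  exact if_neg h

theorem ind_nonneg (P : Prop) : 0 ≤ ind P := by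
  by_cases h : P
  · rw [ind_of h]
    norm_num
  · rw [ind_not h]

theorem ind_le_one (P : Prop) : ind P ≤ 1 := by
  by_cases h : P
  · rw [ind_of h]
  · rw [ind_not h]
    norm_num

open Classical in
theorem Ex_ind (p : E → ℝ) (s : Finset E) (R : Finset E → Prop) :
    Ex p s (fun ω => ind (R ω)) = ∑ ω ∈ s.powerset.filter R, ∏ e ∈ s, if e ∈ ω then p e else 1 - p e := by
  unfold Ex
  rw [sum_filter]
  apply sum_congr rfl
  intro ω _
  by_cases h : R ω
  · rw [if_pos h]
    show _ * ind (R ω) = _
    rw [ind_of h, mul_one]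
  · rw [if_neg h]
    show _ * ind (R ω) = _
    rw [ind_not h, mul_zero]

end Smo
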