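import Mathlib

/-!
# Smo.Repair: making a nearly regular graph regular

A graph on `S` (given by a set of pairs) with total degree deviation `t` from `k`, `k < |S|`, `k |S|` even, can be made `k`-regular by changing at most `3 t / 2` pairs.
-/

namespace Smo

open Finset

variable {V : Type*} [DecidableEq V]

/-- The neighbours of `v` in `S`. -/
def nb (ω : Finset (Sym2 V)) (S : Finset V) (v : V) : Finset V := S.filter fun u => u ≠ v ∧ s(v, u) ∈ ω

/-- The degree of `v` inside `S`. -/
def dg (ω : Finset (Sym2 V)) (S : Finset V) (v : V) : ℕ := (nb ω S v).card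

/-- The pairs inside `S`. -/
def prs (S : Finset V) : Finset (Sym2 V) := S.sym2.filter fun e => ¬ e.IsDiag

theorem mem_prs {S : Finset V} {a b : V} : s(a, b) ∈ prs S ↔ a ∈ S ∧ b ∈ S ∧ a ≠ b := by
  unfold prs
  rw [mem_filter, mk_mem_sym2_iff, Sym2.mk_isDiag_iff]
  tauto

theorem mem_nb {ω : Finset (Sym2 V)} {S : Finset V} {v u : V} : u ∈ nb ω S v ↔ u ∈ S ∧ u ≠ v ∧ s(v, u) ∈ ω := by
  unfold nb
  rw [mem_filter]

theorem nb_comm {ω : Finset (Sym2 V)} {S : Finset V} {v u : V} (hv : v ∈ S) (h : u ∈ nb ω S v) : v ∈ nb ω S u := by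
  rw [mem_nb] at h ⊢
  refine ⟨hv, h.2.1.symm, ?_⟩
  rw [Sym2.eq_swap]
  exact h.2.2

theorem mem_insert_pair {ω : Finset (Sym2 V)} {a b v u : V} :
    s(v, u) ∈ insert s(a, b) ω ↔ ((v = a ∧ u = b) ∨ (v = b ∧ u = a)) ∨ s(v, u) ∈ ω := by
  rw [mem_insert, Sym2.eq_iff]

theorem dg_insert_left {ω : Finset (Sym2 V)} {S : Finset V} {a b : V} (hab : a ≠ b) (hb : b ∈ S)
    (h : s(a, b) ∉ ω) : dg (insert s(a, b) ω) S a = dg ω S a + 1 := by
  have h1 : nb (insert s(a, b) ω) S a = insert b (nb ω S a) := by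
    ext u
    rw [mem_nb, mem_insert_pair, mem_insert, mem_nb]
    constructor
    · rintro ⟨hu, hua, (⟨_, rfl⟩ | ⟨h1, _⟩) | h2⟩
      · exact Or.inl rfl
      · exact absurd h1 hab
      · exact Or.inr ⟨hu, hua, h2⟩
    · rintro (rfl | ⟨hu, hua, h2⟩)
      · exact ⟨hb, hab.symm, Or.inl (Or.inl ⟨rfl, rfl⟩)⟩
      · exact ⟨hu, hua, Or.inr h2⟩
  unfold dg
  rw [h1, card_insert_of_notMem]
  rw [mem_nb]
  exact fun h3 => h h3.2.2

theorem dg_insert_right {ω : Finset (Sym2 V)} {S : Finset V} {a b : V} (hab : a ≠ b) (ha : a ∈ S)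
    (h : s(a, b) ∉ ω) : dg (insert s(a, b) ω) S b = dg ω S b + 1 := by
  rw [Sym2.eq_swap] at h ⊢
  exact dg_insert_left hab.symm ha h

theorem dg_insert_other {ω : Finset (Sym2 V)} {S : Finset V} {a b v : V} (hva : v ≠ a) (hvb : v ≠ b) :
    dg (insert s(a, b) ω) S v = dg ω S v := by
  unfold dg
  congr 1
  ext u
  rw [mem_nb, mem_nb, mem_insert_pair]
  constructor
  · rintro ⟨hu, hua, (⟨h1, _⟩ | ⟨h1, _⟩) | h2⟩
    · exact absurd h1 hva
    · exact absurd h1 hvb
    · exact ⟨hu, hua, h2⟩
  · exact fun h => ⟨h.1, h.2.1, Or.inr h.2.2⟩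

theorem dg_erase_left {ω : Finset (Sym2 V)} {S : Finset V} {a b : V} (hab : a ≠ b) (hb : b ∈ S)
    (h : s(a, b) ∈ ω) : dg (ω.erase s(a, b)) S a + 1 = dg ω S a := by
  rw [← dg_insert_left hab hb (notMem_erase _ _), insert_erase h]

theorem dg_erase_right {ω : Finset (Sym2 V)} {S : Finset V} {a b : V} (hab : a ≠ b) (ha : a ∈ S)
    (h : s(a, b) ∈ ω) : dg (ω.erase s(a, b)) S b + 1 = dg ω S b := by
  rw [← dg_insert_right hab ha (notMem_erase _ _), insert_erase h]

theorem dg_erase_other {ω : Finset (Sym2 V)} {S : Finset V} {a b v : V} (hva : v ≠ a) (hvb : v ≠ b) :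
    dg (ω.erase s(a, b)) S v = dg ω S v := by
  by_cases h : s(a, b) ∈ ω
  · conv_rhs => rw [← insert_erase h]
    rw [dg_insert_other hva hvb]
  · rw [erase_eq_of_notMem h]

/-- Deviation at a vertex. -/
def dv (ω : Finset (Sym2 V)) (S : Finset V) (k : ℕ) (v : V) : ℤ := |(dg ω S v : ℤ) - k|

/-- Total deviation. -/
def tdv (ω : Finset (Sym2 V)) (S : Finset V) (k : ℕ) : ℤ := ∑ v ∈ S, dv ω S k v

theorem tdv_step {ω ω1 : Finset (Sym2 V)} {S : Finset V} {k : ℕ} {u v : V} (hu : u ∈ S) (hv : v ∈ S)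
    (h : ∀ w ∈ S, dv ω1 S k w + (if w = u then 1 else 0) + (if w = v then 1 else 0) ≤ dv ω S k w) :
    tdv ω1 S k + 2 ≤ tdv ω S k := by
  have h1 := sum_le_sum h
  rw [sum_add_distrib, sum_add_distrib, sum_ite_eq' S u, sum_ite_eq' S v, if_pos hu, if_pos hv] at h1
  unfold tdv
  linarith

/-- The relation produced by one step. -/
def Step (ω ω1 : Finset (Sym2 V)) (S : Finset V) (k : ℕ) : Prop :=
  symmDiff ω ω1 ⊆ prs S ∧ (symmDiff ω ω1).card ≤ 3 ∧ tdv ω1 S k + 2 ≤ tdv ω S k

theorem symmDiff_insert {ω : Finset (Sym2 V)} {e : Sym2 V} : symmDiff ω (insert e ω) ⊆ {e} := by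
  intro x hx
  rw [mem_symmDiff] at hx
  rw [mem_singleton]
  rcases hx with ⟨h1, h2⟩ | ⟨h1, h2⟩
  · exact absurd (mem_insert_of_mem h1) h2
  · rcases mem_insert.mp h1 with h3 | h3
    · exact h3
    · exact absurd h3 h2

theorem symmDiff_erase {ω : Finset (Sym2 V)} {e : Sym2 V} : symmDiff ω (ω.erase e) ⊆ {e} := by
  intro x hx
  rw [mem_symmDiff] at hx
  rw [mem_singleton]
  rcases hx with ⟨h1, h2⟩ | ⟨h1, h2⟩
  · by_contra h3
    exact h2 (mem_erase.mpr ⟨h3, h1⟩)
  · exact absurd (mem_of_mem_erase h1) h2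

/-- One vertex too low, one too high. -/
theorem step_one {ω : Finset (Sym2 V)} {S : Finset V} {k : ℕ} {u v : V} (hu : u ∈ S) (hv : v ∈ S)
    (hlow : dg ω S u < k) (hhigh : k < dg ω S v) : ∃ ω1, Step ω ω1 S k := by
  have huv : u ≠ v := by
    rintro rfl
    omega
  obtain ⟨x, hx, hxu⟩ : ∃ x ∈ (nb ω S v).erase u, x ∉ nb ω S u := by
    apply exists_mem_notMem_of_card_lt_card
    have h1 : (nb ω S v).card - 1 ≤ ((nb ω S v).erase u).card := pred_card_le_card_erase
    unfold dg at hlow hhigh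
    omega
  rw [mem_erase, mem_nb] at hx
  obtain ⟨hxu', hxS, hxv, hvx⟩ := hx
  have hux : s(u, x) ∉ ω := fun h => hxu (mem_nb.mpr ⟨hxS, hxu', h⟩)
  have hux' : s(u, x) ∉ ω.erase s(v, x) := fun h => hux (mem_of_mem_erase h)
  refine ⟨insert s(u, x) (ω.erase s(v, x)), ?_, ?_, ?_⟩
  · refine (symmDiff_triangle ω (ω.erase s(v, x)) _).trans ?_
    refine union_subset (symmDiff_erase.trans ?_) (symmDiff_insert.trans ?_)
    · rw [singleton_subset_iff, mem_prs]
      exact ⟨hv, hxS, hxv.symm⟩
    · rw [singleton_subset_iff, mem_prs]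
      exact ⟨hu, hxS, hxu'.symm⟩
  · refine (card_le_card (symmDiff_triangle ω (ω.erase s(v, x)) _)).trans ?_
    refine (card_union_le _ _).trans ?_
    have h1 := card_le_card (symmDiff_erase (ω := ω) (e := s(v, x)))
    have h2 := card_le_card (symmDiff_insert (ω := ω.erase s(v, x)) (e := s(u, x)))
    rw [card_singleton] at h1 h2
    omega
  · apply tdv_step hu hv
    intro w hw
    unfold dv
    by_cases hwu : w = u
    · subst hwu
      rw [if_pos rfl, if_neg huv, dg_insert_left hxu'.symm hxS hux', dg_erase_other huv hxu'.symm]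
      rw [abs_of_nonpos (by push_cast; omega), abs_of_nonpos (by omega)]
      push_cast
      omega
    · rw [if_neg hwu]
      by_cases hwx : w = x
      · subst hwx
        rw [if_neg hxv, dg_insert_right (Ne.symm hwu) hu hux']
        have h3 := dg_erase_right hxv.symm hv hvx
        rw [h3]
        simp
      · rw [dg_insert_other hwu hwx]
        by_cases hwv : w = v
        · subst hwv
          rw [if_pos rfl]
          have h3 := dg_erase_left (Ne.symm hxv) hxS hvx
          rw [abs_of_nonneg (by omega), abs_of_nonneg (by omega)]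
          omega
        · rw [if_neg hwv, dg_erase_other hwv hwx]
          simp

/-- Two vertices too low, not adjacent. -/
theorem step_add {ω : Finset (Sym2 V)} {S : Finset V} {k : ℕ} {u x : V} (hu : u ∈ S) (hx : x ∈ S) (hux : u ≠ x)
    (h : s(u, x) ∉ ω) (hlu : dg ω S u < k) (hlx : dg ω S x < k) : ∃ ω1, Step ω ω1 S k := by
  refine ⟨insert s(u, x) ω, ?_, ?_, ?_⟩
  · refine symmDiff_insert.trans ?_
    rw [singleton_subset_iff, mem_prs]
    exact ⟨hu, hx, hux⟩
  · have h2 := card_le_card (symmDiff_insert (ω := ω) (e := s(u, x)))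
    rw [card_singleton] at h2
    omega
  · apply tdv_step hu hx
    intro w hw
    unfold dv
    by_cases hwu : w = u
    · subst hwu
      rw [if_pos rfl, if_neg hux, dg_insert_left hux hx h]
      rw [abs_of_nonpos (by push_cast; omega), abs_of_nonpos (by omega)]
      push_cast
      omega
    · rw [if_neg hwu]
      by_cases hwx : w = x
      · subst hwx
        rw [if_pos rfl, dg_insert_right hux hu h]
        rw [abs_of_nonpos (by push_cast; omega), abs_of_nonpos (by omega)]
        push_cast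
        omega
      · rw [if_neg hwx, dg_insert_other hwu hwx]
        simp

/-- The exchange of an edge `x y` for `u x` and `v y`. -/
theorem step_exch {ω : Finset (Sym2 V)} {S : Finset V} {k : ℕ} {u v x y : V} (hu : u ∈ S) (hv : v ∈ S)
    (hx : x ∈ S) (hy : y ∈ S) (hux : u ≠ x) (huy : u ≠ y) (hvx : v ≠ x) (hvy : v ≠ y) (hxy : x ≠ y)
    (h1 : s(x, y) ∈ ω) (h2 : s(u, x) ∉ ω) (h3 : s(v, y) ∉ ω)
    (hlu : dg ω S u < k) (hlv : dg ω S v < k) (huv : u = v → dg ω S u + 2 ≤ k) : ∃ ω1, Step ω ω1 S k := by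
  set ω0 := ω.erase s(x, y) with hω0
  set ω2 := insert s(u, x) ω0 with hω2
  have h2' : s(u, x) ∉ ω0 := fun h => h2 (mem_of_mem_erase h)
  have h3' : s(v, y) ∉ ω2 := by
    rw [hω2, mem_insert_pair]
    rintro ((⟨_, h⟩ | ⟨h, _⟩) | h)
    · exact hxy h.symm
    · exact hvx h
    · exact h3 (mem_of_mem_erase h)
  refine ⟨insert s(v, y) ω2, ?_, ?_, ?_⟩
  · refine (symmDiff_triangle ω ω0 _).trans ?_
    refine union_subset (symmDiff_erase.trans ?_) ((symmDiff_triangle ω0 ω2 _).trans
      (union_subset (symmDiff_insert.trans ?_) (symmDiff_insert.trans ?_)))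
    · rw [singleton_subset_iff, mem_prs]
      exact ⟨hx, hy, hxy⟩
    · rw [singleton_subset_iff, mem_prs]
      exact ⟨hu, hx, hux⟩
    · rw [singleton_subset_iff, mem_prs]
      exact ⟨hv, hy, hvy⟩
  · refine (card_le_card (symmDiff_triangle ω ω0 _)).trans ?_
    refine (card_union_le _ _).trans ?_
    have i1 : (symmDiff ω ω0).card ≤ 1 := card_le_card (symmDiff_erase (ω := ω) (e := s(x, y)))
    have i2 : (symmDiff ω0 ω2).card ≤ 1 := card_le_card (symmDiff_insert (ω := ω0) (e := s(u, x)))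
    have i3 : (symmDiff ω2 (insert s(v, y) ω2)).card ≤ 1 :=
      card_le_card (symmDiff_insert (ω := ω2) (e := s(v, y)))
    have i4 : (symmDiff ω0 (insert s(v, y) ω2)).card ≤ (symmDiff ω0 ω2).card + (symmDiff ω2 (insert s(v, y) ω2)).card :=
      (card_le_card (symmDiff_triangle ω0 ω2 (insert s(v, y) ω2))).trans (card_union_le _ _)
    omega
  · apply tdv_step hu hv
    intro w hw
    unfold dv
    have ex := dg_erase_left hxy hy h1
    have ey := dg_erase_right hxy hx h1
    by_cases hwx : w = x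
    · subst hwx
      rw [if_neg hux.symm, if_neg hvx.symm, dg_insert_other hvx.symm hxy, hω2, dg_insert_right hux hu h2', ex]
      simp
    by_cases hwy : w = y
    · subst hwy
      rw [if_neg huy.symm, if_neg hvy.symm, dg_insert_right hvy hv h3', hω2, dg_insert_other huy.symm hxy.symm, ey]
      simp
    have e0 : dg ω0 S w = dg ω S w := dg_erase_other hwx hwy
    by_cases hwu : w = u
    · subst hwu
      by_cases hwv : w = v
      · subst hwv
        have := huv rfl
        rw [if_pos rfl, dg_insert_left hvy hy h3', hω2, dg_insert_left hux hx h2', e0]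
        rw [abs_of_nonpos (by push_cast; omega), abs_of_nonpos (by omega)]
        push_cast
        omega
      · rw [if_pos rfl, if_neg hwv, dg_insert_other hwv huy, hω2, dg_insert_left hux hx h2', e0]
        rw [abs_of_nonpos (by push_cast; omega), abs_of_nonpos (by omega)]
        push_cast
        omega
    · rw [if_neg hwu]
      by_cases hwv : w = v
      · subst hwv
        rw [if_pos rfl, dg_insert_left hvy hy h3', hω2, dg_insert_other hwu hwx, e0]
        rw [abs_of_nonpos (by push_cast; omega), abs_of_nonpos (by omega)]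
        push_cast
        omega
      · rw [if_neg hwv, dg_insert_other hwv hwy, hω2, dg_insert_other hwu hwx, e0]
        simp

/-- The non-neighbours of `v` in `S`. -/
def nn (ω : Finset (Sym2 V)) (S : Finset V) (v : V) : Finset V := S.filter fun u => u ≠ v ∧ s(v, u) ∉ ω

theorem mem_nn {ω : Finset (Sym2 V)} {S : Finset V} {v u : V} : u ∈ nn ω S v ↔ u ∈ S ∧ u ≠ v ∧ s(v, u) ∉ ω := by
  unfold nn
  rw [mem_filter]

theorem card_nn {ω : Finset (Sym2 V)} {S : Finset V} {v : V} (hv : v ∈ S) :
    dg ω S v + (nn ω S v).card + 1 = S.card := by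
  have h1 : (S.erase v).card + 1 = S.card := card_erase_add_one hv
  have h2 : nb ω S v = (S.erase v).filter fun u => s(v, u) ∈ ω := by
    ext u
    rw [mem_nb, mem_filter, mem_erase]
    tauto
  have h3 : nn ω S v = (S.erase v).filter fun u => s(v, u) ∉ ω := by
    ext u
    rw [mem_nn, mem_filter, mem_erase]
    tauto
  unfold dg
  rw [h2, h3, card_filter_add_card_filter_not]
  exact h1

/-- All degrees at most `k`, some smaller. -/
theorem step_low {ω : Finset (Sym2 V)} {S : Finset V} {k : ℕ} (hk : k < S.card) (hle : ∀ v ∈ S, dg ω S v ≤ k)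
    {u : V} (hu : u ∈ S) (hlu : dg ω S u < k) (hev : dg ω S u + 2 ≤ k ∨ ∃ v ∈ S, v ≠ u ∧ dg ω S v < k) :
    ∃ ω1, Step ω ω1 S k := by
  by_contra hno
  -- non-neighbours of a low vertex have degree exactly `k`
  have hA : ∀ v ∈ S, dg ω S v < k → ∀ x ∈ nn ω S v, dg ω S x = k := by
    intro v hv hlv x hx
    rw [mem_nn] at hx
    by_contra h
    exact hno (step_add hv hx.1 hx.2.1.symm hx.2.2 hlv (lt_of_le_of_ne (hle x hx.1) h))
  have hne : ∀ v ∈ S, dg ω S v < k → (nn ω S v).Nonempty := by
    intro v hv hlv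
    rw [← card_pos]
    have := card_nn (ω := ω) hv
    omega
  rcases hev with h2 | ⟨v, hv, hvu, hlv⟩
  · obtain ⟨x, hx⟩ := hne u hu hlu
    have hx' := mem_nn.mp hx
    have hdx := hA u hu hlu x hx
    have hsub : nb ω S x ⊆ nb ω S u := by
      intro y hy
      have hy' := mem_nb.mp hy
      have hyu : y ≠ u := by
        rintro rfl
        apply hx'.2.2
        rw [Sym2.eq_swap]
        exact hy'.2.2
      by_contra hc
      have hyn : s(u, y) ∉ ω := fun h => hc (mem_nb.mpr ⟨hy'.1, hyu, h⟩)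
      exact hno (step_exch hu hu hx'.1 hy'.1 hx'.2.1.symm hyu.symm hx'.2.1.symm hyu.symm hy'.2.1.symm hy'.2.2
        hx'.2.2 hyn hlu hlu (fun _ => h2))
    have := card_le_card hsub
    unfold dg at hdx h2
    omega
  · have hadj : s(u, v) ∈ ω := by
      by_contra h
      exact hno (step_add hu hv hvu.symm h hlu hlv)
    obtain ⟨x, hx⟩ := hne u hu hlu
    have hx' := mem_nn.mp hx
    have hdx := hA u hu hlu x hx
    have hxv : x ≠ v := by
      rintro rfl
      exact hx'.2.2 hadj
    have hsub : nb ω S x ⊆ insert v ((nb ω S v).erase u) := by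
      intro y hy
      have hy' := mem_nb.mp hy
      have hyu : y ≠ u := by
        rintro rfl
        apply hx'.2.2
        rw [Sym2.eq_swap]
        exact hy'.2.2
      rw [mem_insert, mem_erase]
      by_cases hyv : y = v
      · exact Or.inl hyv
      · refine Or.inr ⟨hyu, ?_⟩
        by_contra hc
        have hyn : s(v, y) ∉ ω := fun h => hc (mem_nb.mpr ⟨hy'.1, hyv, h⟩)
        exact hno (step_exch hu hv hx'.1 hy'.1 hx'.2.1.symm hyu.symm hxv.symm (Ne.symm hyv) hy'.2.1.symm hy'.2.2
          hx'.2.2 hyn hlu hlv (fun h => absurd h hvu.symm))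
    have h5 := (card_le_card hsub).trans (card_insert_le _ _)
    have humem : u ∈ nb ω S v := nb_comm hu (mem_nb.mpr ⟨hv, hvu, hadj⟩)
    rw [card_erase_of_mem humem] at h5
    have : 0 < (nb ω S v).card := card_pos.mpr ⟨u, humem⟩
    unfold dg at hdx hlv
    omega


theorem nb_compl {ω : Finset (Sym2 V)} {S : Finset V} {v : V} (hv : v ∈ S) : nb (prs S \ ω) S v = nn ω S v := by
  ext u
  rw [mem_nb, mem_nn, mem_sdiff, mem_prs]
  constructor
  · rintro ⟨h1, h2, _, h3⟩
    exact ⟨h1, h2, h3⟩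
  · rintro ⟨h1, h2, h3⟩
    exact ⟨h1, h2, ⟨hv, h1, h2.symm⟩, h3⟩

theorem dg_compl {ω : Finset (Sym2 V)} {S : Finset V} {v : V} (hv : v ∈ S) :
    dg (prs S \ ω) S v + dg ω S v + 1 = S.card := by
  have h := card_nn (ω := ω) hv
  unfold dg at h ⊢
  rw [nb_compl hv]
  omega

/-- All degrees at least `k`, some larger. -/
theorem step_high {ω : Finset (Sym2 V)} {S : Finset V} {k : ℕ} (hge : ∀ v ∈ S, k ≤ dg ω S v)
    {u : V} (hu : u ∈ S) (hlu : k < dg ω S u) (hev : k + 2 ≤ dg ω S u ∨ ∃ v ∈ S, v ≠ u ∧ k < dg ω S v) :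
    ∃ ω1, Step ω ω1 S k := by
  have hcu := dg_compl (ω := ω) hu
  obtain ⟨k', hk'⟩ : ∃ k', k' + k + 1 = S.card := ⟨S.card - 1 - k, by omega⟩
  have hc : ∀ v ∈ S, dg (prs S \ ω) S v + dg ω S v + 1 = S.card := fun v hv => dg_compl hv
  obtain ⟨ω2, h1, h2, h3⟩ := step_low (ω := prs S \ ω) (S := S) (k := k') (by omega)
    (fun v hv => by have := hc v hv; have := hge v hv; omega) hu (by omega) (by
      rcases hev with h | ⟨v, hv, hvu, h⟩
      · left
        omega
      · right
        refine ⟨v, hv, hvu, ?_⟩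
        have := hc v hv
        omega)
  set Δ := symmDiff (prs S \ ω) ω2 with hΔ
  have hΔ2 : symmDiff ω (symmDiff ω Δ) = Δ := symmDiff_symmDiff_cancel_left ω Δ
  refine ⟨symmDiff ω Δ, ?_, ?_, ?_⟩
  · rw [hΔ2]
    exact h1
  · rw [hΔ2]
    exact h2
  · have hmem : ∀ e ∈ prs S, (e ∈ symmDiff ω Δ ↔ e ∉ ω2) := by
      intro e he
      rw [mem_symmDiff, hΔ, mem_symmDiff, mem_sdiff]
      tauto
    have hd : ∀ v ∈ S, dg (symmDiff ω Δ) S v + dg ω2 S v + 1 = S.card := by
      intro v hv
      have h := card_nn (ω := ω2) hv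
      have h4 : nb (symmDiff ω Δ) S v = nn ω2 S v := by
        ext x
        rw [mem_nb, mem_nn]
        constructor
        · rintro ⟨a1, a2, a3⟩
          exact ⟨a1, a2, (hmem _ (mem_prs.mpr ⟨hv, a1, a2.symm⟩)).mp a3⟩
        · rintro ⟨a1, a2, a3⟩
          exact ⟨a1, a2, (hmem _ (mem_prs.mpr ⟨hv, a1, a2.symm⟩)).mpr a3⟩
      unfold dg at h ⊢
      rw [h4]
      omega
    have e1 : tdv (symmDiff ω Δ) S k = tdv ω2 S k' := by
      unfold tdv dv
      apply sum_congr rfl
      intro v hv
      have := hd v hv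
      rw [abs_sub_comm]
      congr 1
      omega
    have e2 : tdv ω S k = tdv (prs S \ ω) S k' := by
      unfold tdv dv
      apply sum_congr rfl
      intro v hv
      have := hc v hv
      rw [abs_sub_comm]
      congr 1
      omega
    rw [e1, e2]
    exact h3

theorem dg_insert_out {ω : Finset (Sym2 V)} {S : Finset V} {e : Sym2 V} (he : e ∉ prs S) {v : V} (hv : v ∈ S) :
    dg (insert e ω) S v = dg ω S v := by
  unfold dg
  congr 1
  ext u
  rw [mem_nb, mem_nb, mem_insert]
  constructor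
  · rintro ⟨h1, h2, rfl | h3⟩
    · exact absurd (mem_prs.mpr ⟨hv, h1, h2.symm⟩) he
    · exact ⟨h1, h2, h3⟩
  · exact fun h => ⟨h.1, h.2.1, Or.inr h.2.2⟩

theorem even_sum_dg (S : Finset V) (ω : Finset (Sym2 V)) : Even (∑ v ∈ S, dg ω S v) := by
  induction ω using Finset.induction_on with
  | empty =>
    have h : ∑ v ∈ S, dg (∅ : Finset (Sym2 V)) S v = 0 := by
      apply sum_eq_zero
      intro v _
      unfold dg nb
      simp
    rw [h]
    exact ⟨0, rfl⟩
  | insert e ω he ih =>
    by_cases h : e ∈ prs S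
    · induction e using Sym2.ind with
      | _ a b =>
        obtain ⟨ha, hb, hab⟩ := mem_prs.mp h
        have h1 : ∑ v ∈ S, dg (insert s(a, b) ω) S v =
            ∑ v ∈ S, (dg ω S v + (if v = a then 1 else 0) + (if v = b then 1 else 0)) := by
          apply sum_congr rfl
          intro v _
          by_cases hva : v = a
          · subst hva
            rw [if_pos rfl, if_neg hab, dg_insert_left hab hb he]
          · rw [if_neg hva]
            by_cases hvb : v = b
            · subst hvb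
              rw [if_pos rfl, dg_insert_right hab ha he]
            · rw [if_neg hvb, dg_insert_other hva hvb, add_zero, add_zero]
        rw [h1, sum_add_distrib, sum_add_distrib, sum_ite_eq' S a, sum_ite_eq' S b, if_pos ha, if_pos hb]
        rw [add_assoc]
        exact ih.add (by norm_num)
    · have h1 : ∑ v ∈ S, dg (insert e ω) S v = ∑ v ∈ S, dg ω S v :=
        sum_congr rfl fun v hv => dg_insert_out h hv
      rw [h1]
      exact ih

/-- If the deviation is not zero there is a step. -/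
theorem exists_step {ω : Finset (Sym2 V)} {S : Finset V} {k : ℕ} (hk : k < S.card) (hev : Even (S.card * k))
    (hne : ∃ v ∈ S, dg ω S v ≠ k) : ∃ ω1, Step ω ω1 S k := by
  have hsum := even_sum_dg S ω
  by_cases hlow : ∃ u ∈ S, dg ω S u < k
  · obtain ⟨u, hu, hlu⟩ := hlow
    by_cases hhigh : ∃ v ∈ S, k < dg ω S v
    · obtain ⟨v, hv, hhv⟩ := hhigh
      exact step_one hu hv hlu hhv
    · push Not at hhigh
      apply step_low hk hhigh hu hlu
      by_contra hc
      push Not at hc
      have h1 : dg ω S u + 1 = k := by omega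
      have h2 : ∀ v ∈ S, v ≠ u → dg ω S v = k := fun v hv hvu => le_antisymm (hhigh v hv) (hc.2 v hv hvu)
      have h3 : ∑ v ∈ S, dg ω S v + 1 = S.card * k := by
        rw [← add_sum_erase S _ hu, sum_congr rfl fun v hv => h2 v (mem_of_mem_erase hv) (ne_of_mem_erase hv),
          sum_const, smul_eq_mul, card_erase_of_mem hu]
        have : S.card * k = (S.card - 1) * k + k := by
          rw [← Nat.succ_mul]
          congr 1
          omega
        omega
      rw [← h3, Nat.even_add_one] at hev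
      exact hev hsum
  · push Not at hlow
    obtain ⟨u, hu, hnu⟩ := hne
    have hhu : k < dg ω S u := lt_of_le_of_ne (hlow u hu) (Ne.symm hnu)
    apply step_high hlow hu hhu
    by_contra hc
    push Not at hc
    have h1 : dg ω S u = k + 1 := by omega
    have h2 : ∀ v ∈ S, v ≠ u → dg ω S v = k := fun v hv hvu => le_antisymm (hc.2 v hv hvu) (hlow v hv)
    have h3 : ∑ v ∈ S, dg ω S v = S.card * k + 1 := by
      rw [← add_sum_erase S _ hu, sum_congr rfl fun v hv => h2 v (mem_of_mem_erase hv) (ne_of_mem_erase hv),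
        sum_const, smul_eq_mul, card_erase_of_mem hu]
      have : S.card * k = (S.card - 1) * k + k := by
        rw [← Nat.succ_mul]
        congr 1
        omega
      omega
    rw [h3, Nat.even_add_one] at hsum
    exact hsum hev

/-- The repair lemma. -/
theorem repair {S : Finset V} {k : ℕ} (hk : k < S.card) (hev : Even (S.card * k)) :
    ∀ (t : ℕ) (ω : Finset (Sym2 V)), tdv ω S k ≤ t →
    ∃ ω', (∀ v ∈ S, dg ω' S v = k) ∧ symmDiff ω ω' ⊆ prs S ∧ 2 * (symmDiff ω ω').card ≤ 3 * t := by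
  intro t
  induction t using Nat.strong_induction_on with
  | _ t ih =>
    intro ω ht
    by_cases hne : ∃ v ∈ S, dg ω S v ≠ k
    · obtain ⟨ω1, h1, h2, h3⟩ := exists_step hk hev hne
      have h0 : 0 ≤ tdv ω1 S k := by
        unfold tdv dv
        exact sum_nonneg fun v _ => abs_nonneg _
      have ht2 : 2 ≤ t := by omega
      obtain ⟨ω', h4, h5, h6⟩ := ih (t - 2) (by omega) ω1 (by push_cast [ht2]; omega)
      refine ⟨ω', h4, ?_, ?_⟩
      · exact (symmDiff_triangle ω ω1 ω').trans (union_subset h1 h5)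
      · have h7 : (symmDiff ω ω').card ≤ (symmDiff ω ω1).card + (symmDiff ω1 ω').card :=
          (card_le_card (symmDiff_triangle ω ω1 ω')).trans (card_union_le _ _)
        omega
    · push Not at hne
      refine ⟨ω, hne, ?_, ?_⟩
      · rw [symmDiff_self]
        exact empty_subset _
      · rw [symmDiff_self]
        simp

end Smo
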