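import Pool.Agent.Smo.Ex
import Pool.Agent.Smo.Repair

/-!
# Smo.Low: a lower bound for the probability that `S` induces a regular graph
-/

namespace Smo

open Finset

section Count

variable {E : Type*} [DecidableEq E]

theorem wt_le {p : E → ℝ} {δ : ℝ} (hδ : 0 < δ) (hδ1 : δ ≤ 1) {s : Finset E} (hp : ∀ e ∈ s, δ ≤ p e ∧ p e ≤ 1 - δ)
    {α β : Finset E} {m : ℕ} (h : (symmDiff α β).card ≤ m) :
    (∏ e ∈ s, if e ∈ α then p e else 1 - p e) ≤ (1 / δ) ^ m * ∏ e ∈ s, if e ∈ β then p e else 1 - p e := by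
  have h1 : (∏ e ∈ s, if e ∈ α then p e else 1 - p e) ≤
      ∏ e ∈ s, ((if e ∈ symmDiff α β then 1 / δ else 1) * (if e ∈ β then p e else 1 - p e)) := by
    apply prod_le_prod
    · intro e he
      have := hp e he
      split_ifs <;> linarith
    · intro e he
      have hpe := hp e he
      have h2 : ∀ x y : ℝ, x ≤ 1 → δ ≤ y → x ≤ 1 / δ * y := by
        intro x y hx hy
        refine hx.trans ?_
        rw [div_mul_eq_mul_div, one_mul, le_div_iff₀ hδ]
        linarith
      by_cases ha : e ∈ α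
      · by_cases hb : e ∈ β
        · rw [if_pos ha, if_pos hb, if_neg, one_mul]
          rw [mem_symmDiff]
          tauto
        · rw [if_pos ha, if_neg hb, if_pos]
          · exact h2 _ _ (by linarith) (by linarith)
          · rw [mem_symmDiff]
            tauto
      · by_cases hb : e ∈ β
        · rw [if_neg ha, if_pos hb, if_pos]
          · exact h2 _ _ (by linarith) (by linarith)
          · rw [mem_symmDiff]
            tauto
        · rw [if_neg ha, if_neg hb, if_neg, one_mul]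
          rw [mem_symmDiff]
          tauto
  refine h1.trans ?_
  rw [prod_mul_distrib]
  apply mul_le_mul_of_nonneg_right
  · rw [prod_ite, prod_const_one, mul_one, prod_const]
    have hle : 1 ≤ 1 / δ := by rw [le_div_iff₀ hδ]; linarith
    apply pow_le_pow_right₀ hle
    refine le_trans (card_le_card ?_) h
    intro e he
    exact (mem_filter.mp he).2
  · apply prod_nonneg
    intro e he
    have := hp e he
    split_ifs <;> linarith

theorem card_small (B : Finset E) (m : ℕ) : (B.powerset.filter fun Δ => Δ.card ≤ m).card ≤ (B.card + 1) ^ m := by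
  have h1 : (B.powerset.filter fun Δ => Δ.card ≤ m) ⊆ (range (m + 1)).biUnion fun i => powersetCard i B := by
    intro Δ hΔ
    rw [mem_filter, mem_powerset] at hΔ
    rw [mem_biUnion]
    exact ⟨Δ.card, mem_range.mpr (by omega), mem_powersetCard.mpr ⟨hΔ.1, rfl⟩⟩
  refine (card_le_card h1).trans (card_biUnion_le.trans ?_)
  have h2 : ∀ i ∈ range (m + 1), (powersetCard i B).card ≤ B.card ^ i := by
    intro i _
    rw [card_powersetCard]
    exact Nat.choose_le_pow _ _
  refine (sum_le_sum h2).trans ?_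
  clear h1 h2
  induction m with
  | zero => simp
  | succ m ih =>
    rw [sum_range_succ]
    have h3 : B.card ^ (m + 1) ≤ B.card * (B.card + 1) ^ m := by
      rw [pow_succ, mul_comm]
      exact Nat.mul_le_mul_left _ (Nat.pow_le_pow_left (Nat.le_succ _) m)
    calc _ ≤ (B.card + 1) ^ m + B.card * (B.card + 1) ^ m := Nat.add_le_add ih h3
      _ = (B.card + 1) ^ (m + 1) := by ring

open Classical in
theorem Ex_repair {p : E → ℝ} {δ : ℝ} (hδ : 0 < δ) (hδ1 : δ ≤ 1) {s B : Finset E}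
    (hp : ∀ e ∈ s, δ ≤ p e ∧ p e ≤ 1 - δ) (hB : B ⊆ s) {R1 R2 : Finset E → Prop} {m : ℕ}
    (h : ∀ ω ⊆ s, R1 ω → ∃ ω', R2 ω' ∧ symmDiff ω ω' ⊆ B ∧ (symmDiff ω ω').card ≤ m) :
    Ex p s (fun ω => ind (R1 ω)) ≤ (((B.card : ℝ) + 1) / δ) ^ m * Ex p s (fun ω => ind (R2 ω)) := by
  set W : Finset E → ℝ := fun α => ∏ e ∈ s, if e ∈ α then p e else 1 - p e with hW
  have hp01 : ∀ e ∈ s, 0 ≤ p e ∧ p e ≤ 1 := fun x hx => ⟨by linarith [(hp x hx).1], by linarith [(hp x hx).2]⟩
  have hW0 : ∀ α, 0 ≤ W α := fun α => wt_nonneg hp01 α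
  rw [Ex_ind, Ex_ind]
  change ∑ ω ∈ s.powerset.filter R1, W ω ≤ (((B.card : ℝ) + 1) / δ) ^ m * ∑ ω ∈ s.powerset.filter R2, W ω
  choose! φ hφ using h
  have hmaps : ∀ ω ∈ s.powerset.filter R1, φ ω ∈ s.powerset.filter R2 := by
    intro ω hω
    rw [mem_filter, mem_powerset] at hω ⊢
    obtain ⟨h1, h2, _⟩ := hφ ω hω.1 hω.2
    refine ⟨?_, h1⟩
    intro x hx
    by_cases hxω : x ∈ ω
    · exact hω.1 hxω
    · exact hB (h2 (mem_symmDiff.mpr (Or.inr ⟨hx, hxω⟩)))
  calc ∑ ω ∈ s.powerset.filter R1, W ω ≤ ∑ ω ∈ s.powerset.filter R1, (1 / δ) ^ m * W (φ ω) := by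
        apply sum_le_sum
        intro ω hω
        rw [mem_filter, mem_powerset] at hω
        exact wt_le hδ hδ1 hp (hφ ω hω.1 hω.2).2.2
    _ = (1 / δ) ^ m * ∑ ω' ∈ s.powerset.filter R2, ∑ ω ∈ s.powerset.filter R1 with φ ω = ω', W (φ ω) := by
        rw [sum_fiberwise_of_maps_to hmaps, mul_sum]
    _ ≤ (1 / δ) ^ m * ∑ ω' ∈ s.powerset.filter R2, ((B.card : ℝ) + 1) ^ m * W ω' := by
        apply mul_le_mul_of_nonneg_left _ (by positivity)
        apply sum_le_sum
        intro ω' _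
        have h1 : ∑ ω ∈ s.powerset.filter R1 with φ ω = ω', W (φ ω) =
            ((s.powerset.filter R1).filter fun ω => φ ω = ω').card * W ω' := by
          rw [sum_congr rfl (g := fun _ => W ω') (fun ω hω => by rw [(mem_filter.mp hω).2]), sum_const, nsmul_eq_mul]
        rw [h1]
        apply mul_le_mul_of_nonneg_right _ (hW0 ω')
        have h2 : ((s.powerset.filter R1).filter fun ω => φ ω = ω').card ≤
            (B.powerset.filter fun Δ => Δ.card ≤ m).card := by
          apply card_le_card_of_injOn (fun ω => symmDiff ω ω')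
          · intro ω hω
            have hω' := mem_filter.mp (mem_coe.mp hω)
            have hω1 := mem_filter.mp hω'.1
            obtain ⟨_, h3, h4⟩ := hφ ω (mem_powerset.mp hω1.1) hω1.2
            rw [hω'.2] at h3 h4
            exact mem_coe.mpr (mem_filter.mpr ⟨mem_powerset.mpr h3, h4⟩)
          · intro ω _ ω2 _ hh
            exact symmDiff_left_injective ω' hh
        calc (((s.powerset.filter R1).filter fun ω => φ ω = ω').card : ℝ)
            ≤ ((B.powerset.filter fun Δ => Δ.card ≤ m).card : ℝ) := by exact_mod_cast h2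
          _ ≤ (((B.card + 1) ^ m : ℕ) : ℝ) := by exact_mod_cast card_small B m
          _ = ((B.card : ℝ) + 1) ^ m := by push_cast; ring
    _ = (((B.card : ℝ) + 1) / δ) ^ m * ∑ ω ∈ s.powerset.filter R2, W ω := by
        rw [← mul_sum, div_pow, div_pow, one_pow]
        ring

end Count


section Graph

variable {V : Type*} [DecidableEq V]

/-- `S` induces a regular graph. -/
def Reg (ω : Finset (Sym2 V)) (S : Finset V) : Prop := ∃ k : ℕ, ∀ v ∈ S, dg ω S v = k

/-- The pairs at `v`. -/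
def star (S : Finset V) (v : V) : Finset (Sym2 V) := (S.erase v).image fun u => s(v, u)

theorem dg_eq (ω : Finset (Sym2 V)) (S : Finset V) (v : V) : dg ω S v = (ω.filter fun e => e ∈ star S v).card := by
  unfold dg
  have h : (ω.filter fun e => e ∈ star S v) = (nb ω S v).image fun u => s(v, u) := by
    ext e
    unfold star
    rw [mem_filter, mem_image, mem_image]
    constructor
    · rintro ⟨h1, u, hu, rfl⟩
      rw [mem_erase] at hu
      exact ⟨u, mem_nb.mpr ⟨hu.2, hu.1, h1⟩, rfl⟩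
    · rintro ⟨u, hu, rfl⟩
      rw [mem_nb] at hu
      exact ⟨hu.2.2, u, mem_erase.mpr ⟨hu.2.1, hu.1⟩, rfl⟩
  rw [h, card_image_of_injective]
  intro a b hab
  exact Sym2.congr_right.mp hab

theorem pow_dg (ω : Finset (Sym2 V)) (S : Finset V) (v : V) (x : ℝ) :
    x ^ dg ω S v = ∏ e ∈ ω, if e ∈ star S v then x else 1 := by
  rw [dg_eq, prod_ite, prod_const_one, mul_one, prod_const]

theorem Ex_pow_dg (p : Sym2 V → ℝ) {s : Finset (Sym2 V)} {S : Finset V} {v : V} (hs : star S v ⊆ s) (x : ℝ) :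
    Ex p s (fun ω => x ^ dg ω S v) = ∏ u ∈ S.erase v, (1 + p s(v, u) * (x - 1)) := by
  have h1 : Ex p s (fun ω => x ^ dg ω S v) = Ex p s (fun ω => ∏ e ∈ ω, if e ∈ star S v then x else 1) :=
    Ex_congr p s fun ω _ => pow_dg ω S v x
  rw [h1, Ex_prod]
  have h2 : ∏ e ∈ s, (1 - p e + p e * (if e ∈ star S v then x else 1)) =
      ∏ e ∈ s, (if e ∈ star S v then 1 + p e * (x - 1) else 1) := by
    apply prod_congr rfl
    intro e _
    split_ifs <;> ring
  rw [h2, prod_ite, prod_const_one, mul_one]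
  have h3 : s.filter (fun e => e ∈ star S v) = star S v := by
    ext e
    rw [mem_filter]
    exact ⟨fun h => h.2, fun h => ⟨hs h, h⟩⟩
  rw [h3]
  unfold star
  rw [prod_image]
  intro a _ b _ hab
  exact Sym2.congr_right.mp hab

/-- Exponential moment of the degree. -/
theorem Ex_exp_dg {p : Sym2 V → ℝ} {s : Finset (Sym2 V)} (hp : ∀ e ∈ s, 0 ≤ p e ∧ p e ≤ 1) {S : Finset V} {v : V}
    (hs : star S v ⊆ s) {x : ℝ} (hx : |x| ≤ 1) :
    Ex p s (fun ω => Real.exp (x * (dg ω S v - ∑ u ∈ S.erase v, p s(v, u)))) ≤ Real.exp (x ^ 2 * S.card) := by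
  set μ := ∑ u ∈ S.erase v, p s(v, u) with hμ
  have hpu : ∀ u ∈ S.erase v, 0 ≤ p s(v, u) ∧ p s(v, u) ≤ 1 := fun u hu =>
    hp _ (hs (mem_image_of_mem _ hu))
  have hμ1 : μ ≤ S.card := by
    calc μ ≤ ∑ u ∈ S.erase v, (1 : ℝ) := sum_le_sum fun u hu => (hpu u hu).2
      _ = (S.erase v).card := by rw [sum_const, nsmul_eq_mul, mul_one]
      _ ≤ S.card := by exact_mod_cast card_le_card (erase_subset v S)
  have hμ0 : 0 ≤ μ := sum_nonneg fun u hu => (hpu u hu).1
  have hex : |Real.exp x - 1 - x| ≤ x ^ 2 := Real.abs_exp_sub_one_sub_id_le hx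
  have hex' : Real.exp x - 1 ≤ x + x ^ 2 := by linarith [(abs_le.mp hex).2]
  have h1 : Ex p s (fun ω => Real.exp (x * (dg ω S v - μ))) =
      Real.exp (-(x * μ)) * Ex p s (fun ω => (Real.exp x) ^ dg ω S v) := by
    rw [← Ex_mul_left]
    apply Ex_congr
    intro ω _
    rw [← Real.exp_nat_mul, ← Real.exp_add]
    congr 1
    ring
  rw [h1, Ex_pow_dg p hs]
  have h2 : ∏ u ∈ S.erase v, (1 + p s(v, u) * (Real.exp x - 1)) ≤ Real.exp (μ * (x + x ^ 2)) := by
    calc ∏ u ∈ S.erase v, (1 + p s(v, u) * (Real.exp x - 1))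
        ≤ ∏ u ∈ S.erase v, Real.exp (p s(v, u) * (x + x ^ 2)) := by
          apply prod_le_prod
          · intro u hu
            have := hpu u hu
            have := Real.exp_pos x
            nlinarith
          · intro u hu
            have h3 := Real.add_one_le_exp (p s(v, u) * (x + x ^ 2))
            have h4 := mul_le_mul_of_nonneg_left hex' (hpu u hu).1
            linarith
      _ = Real.exp (μ * (x + x ^ 2)) := by
          rw [← Real.exp_sum, ← sum_mul]
  calc Real.exp (-(x * μ)) * ∏ u ∈ S.erase v, (1 + p s(v, u) * (Real.exp x - 1))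
      ≤ Real.exp (-(x * μ)) * Real.exp (μ * (x + x ^ 2)) := mul_le_mul_of_nonneg_left h2 (Real.exp_pos _).le
    _ = Real.exp (x ^ 2 * μ) := by rw [← Real.exp_add]; congr 1; ring
    _ ≤ Real.exp (x ^ 2 * S.card) := by
        apply Real.exp_le_exp.mpr
        exact mul_le_mul_of_nonneg_left hμ1 (sq_nonneg x)

/-- With probability at least one half all degrees are near their expectation. -/
theorem Ex_conc {p : Sym2 V → ℝ} {s : Finset (Sym2 V)} (hp : ∀ e ∈ s, 0 ≤ p e ∧ p e ≤ 1) {S : Finset V}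
    (hs : prs S ⊆ s) {D t : ℝ} (ht : 0 ≤ t) (ht1 : t ≤ 1)
    (hconc : 4 * S.card * Real.exp (t ^ 2 * S.card - t * D) ≤ 1) :
    1 / 2 ≤ Ex p s (fun ω => ind (∀ v ∈ S, |(dg ω S v : ℝ) - ∑ u ∈ S.erase v, p s(v, u)| ≤ D)) := by
  set μ : V → ℝ := fun v => ∑ u ∈ S.erase v, p s(v, u) with hμ
  have hstar : ∀ v ∈ S, star S v ⊆ s := by
    intro v hv e he
    unfold star at he
    rw [mem_image] at he
    obtain ⟨u, hu, rfl⟩ := he
    rw [mem_erase] at hu
    exact hs (mem_prs.mpr ⟨hv, hu.2, hu.1.symm⟩)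
  have h1 : ∀ ω : Finset (Sym2 V), 1 + (-1) * ∑ v ∈ S, Real.exp (-(t * D)) *
      (Real.exp (t * (dg ω S v - μ v)) + Real.exp (-t * (dg ω S v - μ v))) ≤
      ind (∀ v ∈ S, |(dg ω S v : ℝ) - μ v| ≤ D) := by
    intro ω
    have hpos : ∀ v ∈ S, 0 ≤ Real.exp (-(t * D)) *
      (Real.exp (t * (dg ω S v - μ v)) + Real.exp (-t * (dg ω S v - μ v))) := by
      intro v _
      positivity
    by_cases hR : ∀ v ∈ S, |(dg ω S v : ℝ) - μ v| ≤ D
    · rw [ind_of hR]
      linarith [sum_nonneg hpos]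
    · rw [ind_not hR]
      push Not at hR
      obtain ⟨v, hv, hvD⟩ := hR
      have h2 := single_le_sum hpos hv
      have h3 : 1 ≤ Real.exp (-(t * D)) *
          (Real.exp (t * (dg ω S v - μ v)) + Real.exp (-t * (dg ω S v - μ v))) := by
        rw [mul_add, ← Real.exp_add, ← Real.exp_add]
        rcases le_total 0 ((dg ω S v : ℝ) - μ v) with h4 | h4
        · rw [abs_of_nonneg h4] at hvD
          have : 1 ≤ Real.exp (-(t * D) + t * (dg ω S v - μ v)) := by
            rw [Real.one_le_exp_iff]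
            nlinarith
          linarith [Real.exp_pos (-(t * D) + -t * (dg ω S v - μ v))]
        · rw [abs_of_nonpos h4] at hvD
          have : 1 ≤ Real.exp (-(t * D) + -t * (dg ω S v - μ v)) := by
            rw [Real.one_le_exp_iff]
            nlinarith
          linarith [Real.exp_pos (-(t * D) + t * (dg ω S v - μ v))]
      linarith
  refine le_trans ?_ (Ex_mono hp fun ω _ => h1 ω)
  rw [Ex_add, Ex_one, Ex_mul_left, Ex_sum]
  have h5 : ∀ v ∈ S, Ex p s (fun ω => Real.exp (-(t * D)) *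
      (Real.exp (t * (dg ω S v - μ v)) + Real.exp (-t * (dg ω S v - μ v)))) ≤
      2 * Real.exp (t ^ 2 * S.card - t * D) := by
    intro v hv
    rw [Ex_mul_left, Ex_add]
    have h6 := Ex_exp_dg hp (hstar v hv) (x := t) (by rw [abs_of_nonneg ht]; exact ht1)
    have h7 := Ex_exp_dg hp (hstar v hv) (x := -t) (by rw [abs_neg, abs_of_nonneg ht]; exact ht1)
    rw [neg_sq] at h7
    have h8 : 2 * Real.exp (t ^ 2 * S.card - t * D) =
        Real.exp (-(t * D)) * (Real.exp (t ^ 2 * S.card) + Real.exp (t ^ 2 * S.card)) := by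
      rw [sub_eq_add_neg, Real.exp_add]
      ring
    rw [h8]
    exact mul_le_mul_of_nonneg_left (add_le_add h6 h7) (Real.exp_pos _).le
  have h9 := sum_le_sum h5
  rw [sum_const, nsmul_eq_mul] at h9
  have h10 : (∑ v ∈ S, Ex p s fun ω => Real.exp (-(t * D)) *
      (Real.exp (t * (dg ω S v - μ v)) + Real.exp (-t * (dg ω S v - μ v)))) ≤ 1 / 2 := by
    refine h9.trans ?_
    linarith
  linarith

/-- The lower bound. -/
theorem low {p : Sym2 V → ℝ} {δ : ℝ} (hδ : 0 < δ) (hδ1 : δ ≤ 1) {s : Finset (Sym2 V)}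
    (hp : ∀ e ∈ s, δ ≤ p e ∧ p e ≤ 1 - δ) {S : Finset V} (hS : 0 < S.card) (hs : prs S ⊆ s) {c D0 D1 t : ℝ}
    (h0 : ∀ v ∈ S, |∑ u ∈ S.erase v, p s(v, u) - c| ≤ D0) (ht : 0 ≤ t) (ht1 : t ≤ 1)
    (hconc : 4 * S.card * Real.exp (t ^ 2 * S.card - t * D1) ≤ 1) {m : ℕ}
    (hm : 3 * (S.card * (D0 + D1 + 2)) ≤ 2 * m) :
    1 / 2 ≤ ((((prs S).card : ℝ) + 1) / δ) ^ m * Ex p s (fun ω => ind (Reg ω S)) := by
  have hp01 : ∀ e ∈ s, 0 ≤ p e ∧ p e ≤ 1 := fun x hx => ⟨by linarith [(hp x hx).1], by linarith [(hp x hx).2]⟩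
  refine (Ex_conc hp01 hs ht ht1 hconc).trans ?_
  apply Ex_repair hδ hδ1 hp hs
  intro ω _ hω
  -- the degree
  obtain ⟨k, hk1, hk2, hk3⟩ : ∃ k : ℕ, k < S.card ∧ Even (S.card * k) ∧
      ∀ v ∈ S, |(dg ω S v : ℝ) - k| ≤ D0 + D1 + 2 := by
    have hdc : ∀ v ∈ S, |(dg ω S v : ℝ) - c| ≤ D0 + D1 := by
      intro v hv
      have h1 := abs_le.mp (hω v hv)
      have h2 := abs_le.mp (h0 v hv)
      rw [abs_le]
      constructor <;> linarith [h1.1, h1.2, h2.1, h2.2]
    have hdlt : ∀ v ∈ S, dg ω S v + 1 ≤ S.card := by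
      intro v hv
      have := card_nn (ω := ω) hv
      omega
    set k0 : ℕ := 2 * ⌊max c 0 / 2⌋₊ with hk0
    have hmax : 0 ≤ max c 0 / 2 := by
      have := le_max_right c 0
      linarith
    have hk0a : (k0 : ℝ) ≤ max c 0 := by
      rw [hk0]
      push_cast
      linarith [Nat.floor_le hmax]
    have hk0b : max c 0 < k0 + 2 := by
      rw [hk0]
      push_cast
      linarith [Nat.lt_floor_add_one (max c 0 / 2)]
    by_cases hlt : k0 < S.card
    · refine ⟨k0, hlt, ?_, ?_⟩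
      · rw [hk0]
        exact ⟨S.card * ⌊max c 0 / 2⌋₊, by ring⟩
      · intro v hv
        have h1 := abs_le.mp (hdc v hv)
        have h2 : (0 : ℝ) ≤ dg ω S v := Nat.cast_nonneg _
        have h3 : (0 : ℝ) ≤ k0 := Nat.cast_nonneg _
        rw [abs_le]
        rcases le_total c 0 with hc | hc
        · rw [max_eq_right hc] at hk0a hk0b
          constructor
          · linarith [h1.1, h1.2]
          · linarith [h1.1, h1.2]
        · rw [max_eq_left hc] at hk0a hk0b
          constructor <;> linarith [h1.1, h1.2]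
    · push Not at hlt
      refine ⟨S.card - 1, by omega, ?_, ?_⟩
      · have := Nat.even_mul_pred_self S.card
        exact this
      · intro v hv
        have h1 := abs_le.mp (hdc v hv)
        have h4 := hdlt v hv
        have h5 : ((S.card - 1 : ℕ) : ℝ) = S.card - 1 := by
          rw [Nat.cast_sub hS]
          norm_num
        have h6 : (dg ω S v : ℝ) + 1 ≤ S.card := by exact_mod_cast h4
        have h7 : (S.card : ℝ) ≤ k0 := by exact_mod_cast hlt
        rw [h5]
        have h8 : (dg ω S v : ℝ) - (S.card - 1) ≤ 0 := by linarith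
        rw [abs_of_nonpos h8]
        rcases le_total c 0 with hc | hc
        · rw [max_eq_right hc] at hk0a
          have h9 : (0 : ℝ) < S.card := by exact_mod_cast hS
          linarith
        · rw [max_eq_left hc] at hk0a
          linarith [h1.1]
  have htdv : ((tdv ω S k : ℤ) : ℝ) ≤ S.card * (D0 + D1 + 2) := by
    unfold tdv dv
    push_cast
    calc ∑ v ∈ S, |(dg ω S v : ℝ) - k| ≤ ∑ v ∈ S, (D0 + D1 + 2) := sum_le_sum hk3
      _ = S.card * (D0 + D1 + 2) := by rw [sum_const, nsmul_eq_mul]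
  have htn : 0 ≤ tdv ω S k := by
    unfold tdv dv
    exact sum_nonneg fun v _ => abs_nonneg _
  obtain ⟨T, hT⟩ := Int.eq_ofNat_of_zero_le htn
  obtain ⟨ω', h1, h2, h3⟩ := repair hk1 hk2 T ω (le_of_eq hT)
  refine ⟨ω', ⟨k, h1⟩, h2, ?_⟩
  have h4 : (T : ℝ) ≤ S.card * (D0 + D1 + 2) := by
    have : ((tdv ω S k : ℤ) : ℝ) = T := by rw [hT]; simp
    linarith
  have h5 : (2 : ℝ) * (symmDiff ω ω').card ≤ 3 * T := by exact_mod_cast h3
  have h6 : (2 : ℝ) * (symmDiff ω ω').card ≤ 2 * m := by linarith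
  have h7 : ((symmDiff ω ω').card : ℝ) ≤ m := by linarith
  exact_mod_cast h7

end Graph

end Smo
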