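import Pool.Agent.Smo.Sel

/-!
# Smo.Main: the weighted second moment
-/

namespace Smo

open Finset

variable {V : Type*} [DecidableEq V]

theorem Ex_comm {E F : Type*} [DecidableEq E] [DecidableEq F] (p : E → ℝ) (f : F → ℝ) (s : Finset E) (W : Finset F)
    (G : Finset E → Finset F → ℝ) :
    Ex p s (fun ω => Ex f W (fun S => G ω S)) = Ex f W (fun S => Ex p s (fun ω => G ω S)) := by
  unfold Ex
  simp_rw [mul_sum]
  rw [sum_comm]
  apply sum_congr rfl
  intro S _
  apply sum_congr rfl
  intro ω _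
  ring

theorem Ex_mul_right {E : Type*} [DecidableEq E] (p : E → ℝ) (s : Finset E) (c : ℝ) (F : Finset E → ℝ) :
    Ex p s (fun α => F α * c) = Ex p s F * c := by
  have h := Ex_mul_left p s c F
  rw [mul_comm, ← h]
  exact Ex_congr p s fun α _ => mul_comm _ _

/-- `Reg` depends only on the pairs inside `S`. -/
theorem dep_reg (S : Finset V) : Dep (prs S) (fun ω => ind (Reg ω S)) := by
  intro ω
  have h : Reg ω S ↔ Reg (ω ∩ prs S) S := by
    have h1 : ∀ v ∈ S, dg (ω ∩ prs S) S v = dg ω S v := by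
      intro v hv
      unfold dg
      congr 1
      ext u
      rw [mem_nb, mem_nb, mem_inter, mem_prs]
      constructor
      · exact fun h => ⟨h.1, h.2.1, h.2.2.1⟩
      · exact fun h => ⟨h.1, h.2.1, h.2.2, hv, h.1, h.2.1.symm⟩
    unfold Reg
    constructor
    · rintro ⟨k, hk⟩
      exact ⟨k, fun v hv => (h1 v hv).trans (hk v hv)⟩
    · rintro ⟨k, hk⟩
      exact ⟨k, fun v hv => (h1 v hv).symm.trans (hk v hv)⟩
  show ind (Reg ω S) = ind (Reg (ω ∩ prs S) S)
  by_cases hR : Reg ω S
  · rw [ind_of hR, ind_of (h.mp hR)]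
  · rw [ind_not hR, ind_not (fun h' => hR (h.mpr h'))]

theorem prs_inter (S S' : Finset V) : prs S ∩ prs S' = prs (S ∩ S') := by
  ext e
  induction e using Sym2.ind with
  | _ a b =>
    rw [mem_inter, mem_prs, mem_prs, mem_prs, mem_inter, mem_inter]
    tauto

theorem card_prs_le (S : Finset V) : (prs S).card ≤ S.card ^ 2 := by
  have h : prs S ⊆ (S ×ˢ S).image fun x => s(x.1, x.2) := by
    intro e
    induction e using Sym2.ind with
    | _ a b =>
      intro he
      rw [mem_prs] at he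
      rw [mem_image]
      exact ⟨(a, b), mem_product.mpr ⟨he.1, he.2.1⟩, rfl⟩
  refine (card_le_card h).trans (card_image_le.trans ?_)
  rw [card_product, sq]

theorem prs_eq_empty {S : Finset V} (h : S.card ≤ 1) : prs S = ∅ := by
  rw [eq_empty_iff_forall_notMem]
  intro e
  induction e using Sym2.ind with
  | _ a b =>
    intro he
    rw [mem_prs] at he
    exact he.2.2 (card_le_one.mp h a he.1 b he.2.1)

/-- The probability that two sets are both regular. -/
theorem pair_le {p : Sym2 V → ℝ} {δ : ℝ} (hδ : 0 < δ) {s : Finset (Sym2 V)}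
    (hp : ∀ e ∈ s, δ ≤ p e ∧ p e ≤ 1 - δ) {S S' : Finset V} (hS : prs S ⊆ s) :
    Ex p s (fun ω => ind (Reg ω S) * ind (Reg ω S')) ≤
      (1 / δ) ^ (prs (S ∩ S')).card * (Ex p s (fun ω => ind (Reg ω S)) * Ex p s (fun ω => ind (Reg ω S'))) := by
  have h := Ex_mul_le hδ s hp (fun ω => ind (Reg ω S)) (fun ω => ind (Reg ω S')) (fun _ => ind_nonneg _)
    (fun _ => ind_nonneg _) (dep_reg S) (dep_reg S')
  have h1 : s ∩ (prs S ∩ prs S') = prs (S ∩ S') := by
    rw [prs_inter, inter_eq_right]
    rw [← prs_inter]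
    exact inter_subset_left.trans hS
  rw [h1] at h
  exact h

theorem pair_le' {p : Sym2 V → ℝ} {s : Finset (Sym2 V)} (hp : ∀ e ∈ s, 0 ≤ p e ∧ p e ≤ 1) {S S' : Finset V} :
    Ex p s (fun ω => ind (Reg ω S) * ind (Reg ω S')) ≤ Ex p s (fun ω => ind (Reg ω S)) := by
  apply Ex_mono hp
  intro ω _
  calc ind (Reg ω S) * ind (Reg ω S') ≤ ind (Reg ω S) * 1 :=
        mul_le_mul_of_nonneg_left (ind_le_one _) (ind_nonneg _)
    _ = _ := mul_one _

/-- The weighted second moment. -/
theorem second {p : Sym2 V → ℝ} {δ : ℝ} (hδ : 0 < δ) (hδ1 : δ ≤ 1) {s : Finset (Sym2 V)}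
    (hp : ∀ e ∈ s, δ ≤ p e ∧ p e ≤ 1 - δ) {f : V → ℝ} {W : Finset V} (hW : prs W ⊆ s)
    (hf : ∀ v ∈ W, 0 ≤ f v ∧ f v ≤ 1) {sz c D0 Lam lam κ M : ℝ}
    (hgood : 1 / 2 ≤ Ex f W (fun S => ind (Good p sz c D0 S))) (_hLam : 0 < Lam)
    (hq : ∀ S ⊆ W, Good p sz c D0 S → 1 ≤ Lam * Ex p s (fun ω => ind (Reg ω S)))
    (hlam : 1 ≤ lam) (hM : Ex f W (fun S => Ex f W (fun S' => lam ^ (S ∩ S').card)) ≤ M)
    (hκ0 : 0 ≤ κ)
    (hκ : ∀ j : ℕ, 2 ≤ j → (j : ℝ) ≤ 2 * sz → min ((1 / δ) ^ (j ^ 2)) Lam ≤ κ * lam ^ j) :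
    Ex p s (fun ω => ind (∀ S ⊆ W, sz / 2 ≤ S.card → ¬ Reg ω S)) ≤ 4 * (κ * M) := by
  have hp01 : ∀ e ∈ s, 0 ≤ p e ∧ p e ≤ 1 := fun x hx => ⟨by linarith [(hp x hx).1], by linarith [(hp x hx).2]⟩
  set q : Finset V → ℝ := fun S => Ex p s (fun ω => ind (Reg ω S)) with hqdef
  set G : Finset V → ℝ := fun S => ind (Good p sz c D0 S) with hGdef
  set g : Finset V → ℝ := fun S => G S / q S with hgdef
  set m0 : ℝ := Ex f W G with hm0
  have hq0 : ∀ S, 0 ≤ q S := fun S => Ex_nonneg hp01 fun ω _ => ind_nonneg _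
  have hG0 : ∀ S, 0 ≤ G S := fun S => ind_nonneg _
  have hG1 : ∀ S, G S ≤ 1 := fun S => ind_le_one _
  have hg0 : ∀ S, 0 ≤ g S := fun S => div_nonneg (hG0 S) (hq0 S)
  have hqpos : ∀ S ⊆ W, Good p sz c D0 S → 0 < q S := by
    intro S hSW hS
    have h1 := hq S hSW hS
    by_contra h
    have h2 : q S = 0 := le_antisymm (not_lt.mp h) (hq0 S)
    change 1 ≤ Lam * q S at h1
    rw [h2] at h1
    linarith
  have hgq : ∀ S ⊆ W, g S * q S = G S := by
    intro S hSW
    by_cases hS : Good p sz c D0 S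
    · rw [hgdef]
      dsimp only
      rw [div_mul_cancel₀]
      exact (hqpos S hSW hS).ne'
    · have : G S = 0 := ind_not hS
      rw [hgdef]
      dsimp only
      rw [this]
      simp
  set X : Finset (Sym2 V) → ℝ := fun ω => Ex f W (fun S => g S * ind (Reg ω S)) with hX
  have hX0 : ∀ ω, 0 ≤ X ω := fun ω => Ex_nonneg hf fun S _ => mul_nonneg (hg0 S) (ind_nonneg _)
  -- first moment
  have hEX : Ex p s X = m0 := by
    rw [hX, Ex_comm, hm0]
    apply Ex_congr
    intro S hSW
    rw [Ex_mul_left]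
    exact hgq S hSW
  -- second moment
  have hEX2 : Ex p s (fun ω => X ω ^ 2) ≤ m0 ^ 2 + κ * M := by
    have e1 : Ex p s (fun ω => X ω ^ 2) =
        Ex f W (fun S => Ex f W (fun S' => g S * g S' * Ex p s (fun ω => ind (Reg ω S) * ind (Reg ω S')))) := by
      have e2 : ∀ ω ⊆ s, X ω ^ 2 = Ex f W (fun S => Ex f W (fun S' => g S * g S' * (ind (Reg ω S) * ind (Reg ω S')))) := by
        intro ω _
        rw [sq, hX]
        dsimp only
        rw [← Ex_mul_right]
        apply Ex_congr
        intro S _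
        rw [← Ex_mul_left]
        apply Ex_congr
        intro S' _
        ring
      rw [Ex_congr p s e2, Ex_comm]
      apply Ex_congr
      intro S _
      rw [Ex_comm]
      apply Ex_congr
      intro S' _
      rw [Ex_mul_left]
    rw [e1]
    have e3 : ∀ S ⊆ W, ∀ S' ⊆ W, g S * g S' * Ex p s (fun ω => ind (Reg ω S) * ind (Reg ω S')) ≤
        G S * G S' + κ * lam ^ (S ∩ S').card := by
      intro S hSW S' hSW'
      have hpos : 0 ≤ κ * lam ^ (S ∩ S').card := by positivity
      have hGG : 0 ≤ G S * G S' := mul_nonneg (hG0 S) (hG0 S')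
      by_cases hS : Good p sz c D0 S
      swap
      · have h0 : g S = 0 := by
          rw [hgdef]
          dsimp only
          rw [show G S = 0 from ind_not hS, zero_div]
        rw [h0, zero_mul, zero_mul]
        linarith
      by_cases hS' : Good p sz c D0 S'
      swap
      · have h0 : g S' = 0 := by
          rw [hgdef]
          dsimp only
          rw [show G S' = 0 from ind_not hS', zero_div]
        rw [h0, mul_zero, zero_mul]
        linarith
      have hqS := hqpos S hSW hS
      have hqS' := hqpos S' hSW' hS'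
      have hprS : prs S ⊆ s := by
        refine Subset.trans ?_ hW
        intro e
        induction e using Sym2.ind with
        | _ a b =>
          intro he
          rw [mem_prs] at he ⊢
          exact ⟨hSW he.1, hSW he.2.1, he.2.2⟩
      have hP1 := pair_le hδ hp (S := S) (S' := S') hprS
      have hP2 := pair_le' hp01 (S := S) (S' := S')
      change _ ≤ (1 / δ) ^ (prs (S ∩ S')).card * (q S * q S') at hP1
      change _ ≤ q S at hP2
      set P := Ex p s (fun ω => ind (Reg ω S) * ind (Reg ω S')) with hPdef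
      have hgS : g S = 1 / q S := by
        rw [hgdef]
        dsimp only
        rw [show G S = 1 from ind_of hS]
      have hgS' : g S' = 1 / q S' := by
        rw [hgdef]
        dsimp only
        rw [show G S' = 1 from ind_of hS']
      have hG1' : G S * G S' = 1 := by
        rw [show G S = 1 from ind_of hS, show G S' = 1 from ind_of hS', one_mul]
      rw [hG1', hgS, hgS']
      have hform : 1 / q S * (1 / q S') * P = P / (q S * q S') := by
        field_simp
      rw [hform, div_le_iff₀ (mul_pos hqS hqS')]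
      rcases Nat.lt_or_ge (S ∩ S').card 2 with hj | hj
      · rw [prs_eq_empty (by omega), card_empty, pow_zero, one_mul] at hP1
        refine hP1.trans ?_
        have := mul_pos hqS hqS'
        nlinarith
      · have hj2 : (((S ∩ S').card : ℕ) : ℝ) ≤ 2 * sz := by
          have : (S ∩ S').card ≤ S.card := card_le_card inter_subset_left
          calc (((S ∩ S').card : ℕ) : ℝ) ≤ S.card := by exact_mod_cast this
            _ ≤ 2 * sz := hS.2.1
        have hk := hκ _ hj hj2
        rcases min_le_iff.mp hk with hk1 | hk1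
        · have h3 : (1 / δ) ^ (prs (S ∩ S')).card ≤ (1 / δ) ^ ((S ∩ S').card ^ 2) := by
            apply pow_le_pow_right₀ _ (card_prs_le _)
            rw [le_div_iff₀ hδ]
            linarith
          calc P ≤ (1 / δ) ^ (prs (S ∩ S')).card * (q S * q S') := hP1
            _ ≤ (κ * lam ^ (S ∩ S').card) * (q S * q S') :=
              mul_le_mul_of_nonneg_right (h3.trans hk1) (mul_pos hqS hqS').le
            _ ≤ (1 + κ * lam ^ (S ∩ S').card) * (q S * q S') :=
              mul_le_mul_of_nonneg_right (by linarith) (mul_pos hqS hqS').le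
        · have h4 : 1 ≤ Lam * q S' := hq S' hSW' hS'
          calc P ≤ q S := hP2
            _ ≤ q S * (Lam * q S') := by nlinarith
            _ = Lam * (q S * q S') := by ring
            _ ≤ (1 + κ * lam ^ (S ∩ S').card) * (q S * q S') :=
              mul_le_mul_of_nonneg_right (by linarith) (mul_pos hqS hqS').le
    calc Ex f W (fun S => Ex f W (fun S' => g S * g S' * Ex p s (fun ω => ind (Reg ω S) * ind (Reg ω S'))))
        ≤ Ex f W (fun S => Ex f W (fun S' => G S * G S' + κ * lam ^ (S ∩ S').card)) :=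
          Ex_mono hf fun S hS => Ex_mono hf fun S' hS' => e3 S hS S' hS'
      _ = m0 ^ 2 + κ * Ex f W (fun S => Ex f W (fun S' => lam ^ (S ∩ S').card)) := by
          have h5 : ∀ S ⊆ W, Ex f W (fun S' => G S * G S' + κ * lam ^ (S ∩ S').card) =
              G S * m0 + κ * Ex f W (fun S' => lam ^ (S ∩ S').card) := by
            intro S _
            rw [Ex_add, Ex_mul_left, Ex_mul_left]
          rw [Ex_congr f W h5, Ex_add, Ex_mul_right, Ex_mul_left, sq]
      _ ≤ m0 ^ 2 + κ * M := by
          have := mul_le_mul_of_nonneg_left hM hκ0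
          linarith
  -- Chebyshev
  have hm0' : 1 / 2 ≤ m0 := hgood
  have hfin : ∀ ω ⊆ s, m0 ^ 2 * ind (∀ S ⊆ W, sz / 2 ≤ S.card → ¬ Reg ω S) ≤ X ω ^ 2 + (-(2 * m0) * X ω + m0 ^ 2) := by
    intro ω _
    have hsq : 0 ≤ (X ω - m0) ^ 2 := sq_nonneg _
    by_cases hR : ∀ S ⊆ W, sz / 2 ≤ S.card → ¬ Reg ω S
    · have hXz : X ω = 0 := by
        have : X ω = Ex f W (fun _ => 0) := by
          rw [hX]
          apply Ex_congr
          intro S hSW
          by_cases hS : Good p sz c D0 S
          · rw [ind_not (hR S hSW hS.1), mul_zero]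
          · have h0 : g S = 0 := by
              rw [hgdef]
              dsimp only
              rw [show G S = 0 from ind_not hS, zero_div]
            rw [h0, zero_mul]
        rw [this, Ex_const]
      rw [ind_of hR, hXz]
      linarith
    · rw [ind_not hR, mul_zero]
      nlinarith
  have h6 := Ex_mono hp01 hfin
  rw [Ex_mul_left, Ex_add, Ex_add, Ex_mul_left, Ex_const, hEX] at h6
  have h7 : m0 ^ 2 * Ex p s (fun ω => ind (∀ S ⊆ W, sz / 2 ≤ S.card → ¬ Reg ω S)) ≤ κ * M := by
    nlinarith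
  have h8 : 0 ≤ Ex p s (fun ω => ind (∀ S ⊆ W, sz / 2 ≤ S.card → ¬ Reg ω S)) :=
    Ex_nonneg hp01 fun ω _ => ind_nonneg _
  have h9 : 1 / 4 ≤ m0 ^ 2 := by nlinarith
  nlinarith

end Smo
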