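import Pool.Agent.Smo.Low

/-!
# Smo.Sel: the random vertex set
-/

namespace Smo

open Finset

section Moments

variable {V : Type*} [DecidableEq V]

/-- Exponential moment of a weighted sum over the random set. -/
theorem Ex_exp_sum {f : V → ℝ} {W : Finset V} (hf : ∀ v ∈ W, 0 ≤ f v ∧ f v ≤ 1) {a : V → ℝ}
    (ha : ∀ v ∈ W, 0 ≤ a v ∧ a v ≤ 1) {x s : ℝ} (hx : |x| ≤ 1) (hs : ∑ v ∈ W, f v ≤ s) :
    Ex f W (fun S => Real.exp (x * (∑ u ∈ S, a u - ∑ u ∈ W, a u * f u))) ≤ Real.exp (x ^ 2 * s) := by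
  have h1 : Ex f W (fun S => Real.exp (x * (∑ u ∈ S, a u - ∑ u ∈ W, a u * f u))) =
      Real.exp (-(x * ∑ u ∈ W, a u * f u)) * Ex f W (fun S => ∏ u ∈ S, Real.exp (x * a u)) := by
    rw [← Ex_mul_left]
    apply Ex_congr
    intro S _
    rw [← Real.exp_sum, ← Real.exp_add, ← mul_sum]
    congr 1
    ring
  rw [h1, Ex_prod]
  have h2 : ∏ u ∈ W, (1 - f u + f u * Real.exp (x * a u)) ≤ Real.exp (x * ∑ u ∈ W, a u * f u + x ^ 2 * s) := by
    calc ∏ u ∈ W, (1 - f u + f u * Real.exp (x * a u))
        ≤ ∏ u ∈ W, Real.exp (f u * (x * a u + (x * a u) ^ 2)) := by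
          apply prod_le_prod
          · intro u hu
            have := hf u hu
            have := Real.exp_pos (x * a u)
            nlinarith
          · intro u hu
            have h3 := Real.add_one_le_exp (f u * (x * a u + (x * a u) ^ 2))
            have hxa : |x * a u| ≤ 1 := by
              rw [abs_mul, abs_of_nonneg (ha u hu).1]
              calc |x| * a u ≤ 1 * 1 := mul_le_mul hx (ha u hu).2 (ha u hu).1 zero_le_one
                _ = 1 := one_mul 1
            have hex := (abs_le.mp (Real.abs_exp_sub_one_sub_id_le hxa)).2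
            have h4 := mul_le_mul_of_nonneg_left hex (hf u hu).1
            nlinarith
      _ = Real.exp (∑ u ∈ W, f u * (x * a u + (x * a u) ^ 2)) := by rw [Real.exp_sum]
      _ ≤ Real.exp (x * ∑ u ∈ W, a u * f u + x ^ 2 * s) := by
          apply Real.exp_le_exp.mpr
          have h5 : ∑ u ∈ W, f u * (x * a u + (x * a u) ^ 2) ≤ ∑ u ∈ W, (x * (a u * f u) + x ^ 2 * f u) := by
            apply sum_le_sum
            intro u hu
            have h6 : (a u) ^ 2 ≤ 1 := by
              have := ha u hu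
              nlinarith
            have h7 : 0 ≤ x ^ 2 * f u := mul_nonneg (sq_nonneg x) (hf u hu).1
            nlinarith
          rw [sum_add_distrib, ← mul_sum, ← mul_sum] at h5
          have h8 := mul_le_mul_of_nonneg_left hs (sq_nonneg x)
          linarith
  calc Real.exp (-(x * ∑ u ∈ W, a u * f u)) * ∏ u ∈ W, (1 - f u + f u * Real.exp (x * a u))
      ≤ Real.exp (-(x * ∑ u ∈ W, a u * f u)) * Real.exp (x * ∑ u ∈ W, a u * f u + x ^ 2 * s) :=
        mul_le_mul_of_nonneg_left h2 (Real.exp_pos _).le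
    _ = Real.exp (x ^ 2 * s) := by rw [← Real.exp_add]; congr 1; ring

/-- Two independent random sets. -/
theorem Ex_pair {f : V → ℝ} {W : Finset V} (hf : ∀ v ∈ W, 0 ≤ f v ∧ f v ≤ 1) {lam η s : ℝ} (hlam : 1 ≤ lam)
    (hη : ∀ v ∈ W, f v ≤ η) (hs : ∑ v ∈ W, f v ≤ s) (hη0 : 0 ≤ η) :
    Ex f W (fun S => Ex f W (fun S' => lam ^ (S ∩ S').card)) ≤ Real.exp (lam * (η * s)) := by
  have h1 : ∀ S ⊆ W, Ex f W (fun S' => lam ^ (S ∩ S').card) = ∏ u ∈ S, (1 + f u * (lam - 1)) := by
    intro S hS
    have h2 : Ex f W (fun S' => lam ^ (S ∩ S').card) = Ex f W (fun S' => ∏ u ∈ S', if u ∈ S then lam else 1) := by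
      apply Ex_congr
      intro S' _
      rw [prod_ite, prod_const_one, mul_one, prod_const]
      congr 2
      ext u
      rw [mem_inter, mem_filter, and_comm]
    rw [h2, Ex_prod]
    have h3 : ∏ u ∈ W, (1 - f u + f u * (if u ∈ S then lam else 1)) =
        ∏ u ∈ W, (if u ∈ S then 1 + f u * (lam - 1) else 1) := by
      apply prod_congr rfl
      intro u _
      split_ifs <;> ring
    rw [h3, prod_ite, prod_const_one, mul_one]
    congr 1
    ext u
    rw [mem_filter]
    exact ⟨fun h => h.2, fun h => ⟨hS h, h⟩⟩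
  rw [Ex_congr f W h1, Ex_prod]
  calc ∏ u ∈ W, (1 - f u + f u * (1 + f u * (lam - 1))) ≤ ∏ u ∈ W, Real.exp (f u * η * lam) := by
        apply prod_le_prod
        · intro u hu
          have := hf u hu
          have h4 : 0 ≤ f u * (f u * (lam - 1)) := by
            apply mul_nonneg this.1
            exact mul_nonneg this.1 (by linarith)
          nlinarith
        · intro u hu
          have h5 := Real.add_one_le_exp (f u * η * lam)
          have h6 : f u * (f u * (lam - 1)) ≤ f u * (η * lam) := by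
            apply mul_le_mul_of_nonneg_left _ (hf u hu).1
            apply mul_le_mul (hη u hu) (by linarith) (by linarith) hη0
          nlinarith
    _ = Real.exp (∑ u ∈ W, f u * η * lam) := by rw [Real.exp_sum]
    _ ≤ Real.exp (lam * (η * s)) := by
        apply Real.exp_le_exp.mpr
        have h7 : ∑ u ∈ W, f u * η * lam = (∑ u ∈ W, f u) * (η * lam) := by
          rw [sum_mul]
          exact sum_congr rfl fun u _ => by ring
        rw [h7]
        calc (∑ u ∈ W, f u) * (η * lam) ≤ s * (η * lam) :=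
              mul_le_mul_of_nonneg_right hs (mul_nonneg hη0 (by linarith))
          _ = lam * (η * s) := by ring

/-- The sets that are used. -/
def Good (p : Sym2 V → ℝ) (s c D0 : ℝ) (S : Finset V) : Prop :=
  s / 2 ≤ S.card ∧ S.card ≤ 2 * s ∧ ∀ v ∈ S, |∑ u ∈ S.erase v, p s(v, u) - c| ≤ D0

/-- Most random sets are good. -/
theorem Ex_good {p : Sym2 V → ℝ} {f : V → ℝ} {W : Finset V} (hf : ∀ v ∈ W, 0 ≤ f v ∧ f v ≤ 1)
    (hp : ∀ u ∈ W, ∀ v ∈ W, u ≠ v → 0 ≤ p s(u, v) ∧ p s(u, v) ≤ 1) {s c D0 t : ℝ}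
    (hs : ∑ v ∈ W, f v = s) (hw : ∀ v ∈ W, |∑ u ∈ W.erase v, p s(v, u) * f u - c| ≤ 1)
    (ht : 0 ≤ t) (ht1 : t ≤ 1) (hc1 : 8 * Real.exp (-(s / 16)) ≤ 1)
    (hc2 : 8 * s * Real.exp (t ^ 2 * s - t * (D0 - 1)) ≤ 1) :
    1 / 2 ≤ Ex f W (fun S => ind (Good p s c D0 S)) := by
  set m : V → ℝ := fun v => ∑ u ∈ W.erase v, p s(v, u) * f u with hm
  have hs0 : 0 ≤ s := hs ▸ sum_nonneg fun v hv => (hf v hv).1
  -- pointwise bound
  set Z : Finset V → ℝ := fun S => Real.exp (-(s / 8)) *
    (Real.exp (1 / 4 * (∑ u ∈ S, (1 : ℝ) - ∑ u ∈ W, 1 * f u)) +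
      Real.exp (-(1 / 4) * (∑ u ∈ S, (1 : ℝ) - ∑ u ∈ W, 1 * f u))) with hZ
  set Y : V → Finset V → ℝ := fun v S => if v ∈ S then Real.exp (-(t * (D0 - 1))) *
    (Real.exp (t * (∑ u ∈ S.erase v, p s(v, u) - m v)) +
      Real.exp (-t * (∑ u ∈ S.erase v, p s(v, u) - m v))) else 0 with hY
  have hZ0 : ∀ S, 0 ≤ Z S := fun S => by positivity
  have hY0 : ∀ v S, 0 ≤ Y v S := by
    intro v S
    rw [hY]
    dsimp only
    split_ifs
    · positivity
    · exact le_refl 0
  have hsum1 : ∑ u ∈ W, 1 * f u = s := by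
    rw [← hs]
    exact sum_congr rfl fun u _ => one_mul _
  have hpt : ∀ S ⊆ W, 1 + (-1) * (Z S + ∑ v ∈ W, Y v S) ≤ ind (Good p s c D0 S) := by
    intro S hSW
    have hYs : 0 ≤ ∑ v ∈ W, Y v S := sum_nonneg fun v _ => hY0 v S
    by_cases hG : Good p s c D0 S
    · rw [ind_of hG]
      linarith [hZ0 S]
    · rw [ind_not hG]
      have hcard : ∑ u ∈ S, (1 : ℝ) = S.card := by rw [sum_const, nsmul_eq_mul, mul_one]
      have hZS : Z S = Real.exp (-(s / 8)) * (Real.exp (1 / 4 * (S.card - s)) + Real.exp (-(1 / 4) * (S.card - s))) := by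
        rw [hZ]
        dsimp only
        rw [hcard, hsum1]
      by_cases h1 : s / 2 ≤ S.card
      · by_cases h2 : (S.card : ℝ) ≤ 2 * s
        · have h3 : ∃ v ∈ S, D0 < |∑ u ∈ S.erase v, p s(v, u) - c| := by
            by_contra hno
            push Not at hno
            exact hG ⟨h1, h2, hno⟩
          obtain ⟨v, hv, hvD⟩ := h3
          have h4 := single_le_sum (fun v _ => hY0 v S) (hSW hv)
          have h5 : 1 ≤ Y v S := by
            rw [hY]
            dsimp only
            rw [if_pos hv, mul_add, ← Real.exp_add, ← Real.exp_add]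
            have h6 := abs_le.mp (hw v (hSW hv))
            change -1 ≤ m v - c ∧ m v - c ≤ 1 at h6
            rcases le_total 0 (∑ u ∈ S.erase v, p s(v, u) - c) with h7 | h7
            · rw [abs_of_nonneg h7] at hvD
              have : 1 ≤ Real.exp (-(t * (D0 - 1)) + t * (∑ u ∈ S.erase v, p s(v, u) - m v)) := by
                rw [Real.one_le_exp_iff]
                nlinarith [h6.1, h6.2]
              linarith [Real.exp_pos (-(t * (D0 - 1)) + -t * (∑ u ∈ S.erase v, p s(v, u) - m v))]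
            · rw [abs_of_nonpos h7] at hvD
              have : 1 ≤ Real.exp (-(t * (D0 - 1)) + -t * (∑ u ∈ S.erase v, p s(v, u) - m v)) := by
                rw [Real.one_le_exp_iff]
                nlinarith [h6.1, h6.2]
              linarith [Real.exp_pos (-(t * (D0 - 1)) + t * (∑ u ∈ S.erase v, p s(v, u) - m v))]
          linarith [hZ0 S]
        · push Not at h2
          have h3 : 1 ≤ Z S := by
            rw [hZS, mul_add, ← Real.exp_add, ← Real.exp_add]
            have : 1 ≤ Real.exp (-(s / 8) + 1 / 4 * (S.card - s)) := by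
              rw [Real.one_le_exp_iff]
              linarith
            linarith [Real.exp_pos (-(s / 8) + -(1 / 4) * ((S.card : ℝ) - s))]
          linarith
      · push Not at h1
        have h3 : 1 ≤ Z S := by
          rw [hZS, mul_add, ← Real.exp_add, ← Real.exp_add]
          have : 1 ≤ Real.exp (-(s / 8) + -(1 / 4) * (S.card - s)) := by
            rw [Real.one_le_exp_iff]
            linarith
          linarith [Real.exp_pos (-(s / 8) + 1 / 4 * ((S.card : ℝ) - s))]
        linarith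
  refine le_trans ?_ (Ex_mono hf hpt)
  rw [Ex_add, Ex_one, Ex_mul_left, Ex_add, Ex_sum]
  have hZE : Ex f W Z ≤ 1 / 4 := by
    rw [hZ, Ex_mul_left, Ex_add]
    have h1 := Ex_exp_sum hf (a := fun _ => 1) (fun v _ => ⟨zero_le_one, le_refl 1⟩) (x := 1 / 4)
      (by rw [abs_of_nonneg] <;> norm_num) hs.le
    have h2 := Ex_exp_sum hf (a := fun _ => 1) (fun v _ => ⟨zero_le_one, le_refl 1⟩) (x := -(1 / 4))
      (by rw [abs_neg, abs_of_nonneg] <;> norm_num) hs.le
    have h3 : Real.exp (-(s / 16)) = Real.exp (-(s / 8)) * Real.exp ((1 / 4) ^ 2 * s) := by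
      rw [← Real.exp_add]
      congr 1
      ring
    have h4 : Real.exp (-(s / 16)) = Real.exp (-(s / 8)) * Real.exp ((-(1 / 4)) ^ 2 * s) := by
      rw [← Real.exp_add]
      congr 1
      ring
    have h5 := mul_le_mul_of_nonneg_left h1 (Real.exp_pos (-(s / 8))).le
    have h6 := mul_le_mul_of_nonneg_left h2 (Real.exp_pos (-(s / 8))).le
    rw [← h3] at h5
    rw [← h4] at h6
    rw [mul_add]
    linarith
  have hYE : ∀ v ∈ W, Ex f W (Y v) ≤ f v * (2 * Real.exp (t ^ 2 * s - t * (D0 - 1))) := by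
    intro v hv
    have hins : insert v (W.erase v) = W := insert_erase hv
    have hnot : v ∉ W.erase v := notMem_erase v W
    have e1 : Ex f W (Y v) = (1 - f v) * Ex f (W.erase v) (Y v) +
        f v * Ex f (W.erase v) (fun S => Y v (insert v S)) := by
      conv_lhs => rw [← hins]
      exact Ex_insert f hnot _
    have e2 : Ex f (W.erase v) (Y v) = 0 := by
      have : Ex f (W.erase v) (Y v) = Ex f (W.erase v) (fun _ => 0) := by
        apply Ex_congr
        intro S hS
        rw [hY]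
        dsimp only
        rw [if_neg]
        exact fun h => hnot (hS h)
      rw [this, Ex_const]
    have e3 : Ex f (W.erase v) (fun S => Y v (insert v S)) = Real.exp (-(t * (D0 - 1))) *
        (Ex f (W.erase v) (fun S => Real.exp (t * (∑ u ∈ S, p s(v, u) - m v))) +
          Ex f (W.erase v) (fun S => Real.exp (-t * (∑ u ∈ S, p s(v, u) - m v)))) := by
      rw [← Ex_add, ← Ex_mul_left]
      apply Ex_congr
      intro S hS
      rw [hY]
      dsimp only
      rw [if_pos (mem_insert_self v S), erase_insert (fun h => hnot (hS h))]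
    have hf' : ∀ u ∈ W.erase v, 0 ≤ f u ∧ f u ≤ 1 := fun u hu => hf u (mem_of_mem_erase hu)
    have hp' : ∀ u ∈ W.erase v, 0 ≤ p s(v, u) ∧ p s(v, u) ≤ 1 := fun u hu =>
      hp v hv u (mem_of_mem_erase hu) (ne_of_mem_erase hu).symm
    have hs' : ∑ u ∈ W.erase v, f u ≤ s := by
      rw [← hs, ← add_sum_erase W f hv]
      linarith [(hf v hv).1]
    have h1 := Ex_exp_sum hf' (a := fun u => p s(v, u)) hp' (x := t) (by rw [abs_of_nonneg ht]; exact ht1) hs'
    have h2 := Ex_exp_sum hf' (a := fun u => p s(v, u)) hp' (x := -t)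
      (by rw [abs_neg, abs_of_nonneg ht]; exact ht1) hs'
    rw [neg_sq] at h2
    rw [e1, e2, mul_zero, zero_add, e3]
    apply mul_le_mul_of_nonneg_left _ (hf v hv).1
    have h8 : 2 * Real.exp (t ^ 2 * s - t * (D0 - 1)) =
        Real.exp (-(t * (D0 - 1))) * (Real.exp (t ^ 2 * s) + Real.exp (t ^ 2 * s)) := by
      rw [sub_eq_add_neg, Real.exp_add]
      ring
    rw [h8]
    exact mul_le_mul_of_nonneg_left (add_le_add h1 h2) (Real.exp_pos _).le
  have hYS : ∑ v ∈ W, Ex f W (Y v) ≤ 1 / 4 := by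
    refine (sum_le_sum hYE).trans ?_
    rw [← sum_mul, hs]
    linarith
  linarith

end Moments

end Smo
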